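import Mathlib
import Pool.Agent.L0h53.NP.PiCases

set_option autoImplicit false

/-! Case analysis for obstruction subgroups of `G_a × G_m^2` for the points `(1, 1, c)`, `(0, a, r)`,
`(0, a', r')`. -/

namespace Pool.Agent.L0h53.PL

open Module Pool.Agent.L0h39.QA Pool.Agent.L0h53.NP

/-- The case analysis in `G_a × G_m^2`. -/
theorem casesL {a : ℕ} (Af : Submodule ℂ (Fin 1 → ℂ)) (Rm : AddSubgroup (Fin 2 → ℤ))
    (W0 : Submodule ℂ (Fin 1 → ℂ)) (G0 : AddSubgroup (Fin 3 → ℤ)) (T A1 A2 R1 R2 : ℝ)
    (h0 : ¬ (Af = ⊥ ∧ Rm = ⊥))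
    (hW : ∀ c ∈ W0, (∀ v ∈ Af, v 0 * c 0 = 0) ∧ ∀ m ∈ Rm, (m 0 : ℂ) * c 0 = 0)
    (hG : ∀ s ∈ G0, (∀ v ∈ Af, v 0 * (s 0 : ℂ) = 0) ∧
      ∀ m ∈ Rm, (m 0 : ℝ) * (s 1 * A1 + s 2 * A2) + (m 1 : ℝ) * (s 0 * T + s 1 * R1 + s 2 * R2) = 0)
    (hT : T ≠ 0)
    (hind : ∀ s1 s2 : ℤ, (s1 : ℝ) * A1 + s2 * A2 = 0 → s1 = 0 ∧ s2 = 0)
    (hle : (1 - finrank ℂ W0) * (9 * a + 8) + (3 - finrank ℤ G0) * (3 * a + 4) ≤
      finrank ℂ Af * (8 * a + 9) + finrank ℤ Rm * (5 * a + 5)) :
    (∃ m0 m1 : ℤ, m1 ≠ 0 ∧ (m0 : ℝ) * A1 + m1 * R1 = 0) ∨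
      ∃ s0 s1 : ℤ, s1 ≠ 0 ∧ (s0 : ℝ) * T + s1 * R1 = 0 := by
  have hR2 : finrank ℤ Rm ≤ 2 := rank_le Rm
  have hA1 : finrank ℂ Af ≤ 1 := by
    have := Submodule.finrank_le Af
    rwa [finrank_fin_fun] at this
  have hG3 : finrank ℤ G0 ≤ 3 := rank_le G0
  have hdet : ∀ m ∈ Rm, ∀ m' ∈ Rm, m 0 * m' 1 - m 1 * m' 0 ≠ 0 → ∀ s ∈ G0, s 1 = 0 ∧ s 2 = 0 := by
    intro m hm m' hm' hd s hs
    have e1 := (hG s hs).2 m hm
    have e2 := (hG s hs).2 m' hm'
    have hd' : ((m 0 : ℝ) * m' 1 - m 1 * m' 0) ≠ 0 := by exact_mod_cast hd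
    have e3 : ((m 0 : ℝ) * m' 1 - m 1 * m' 0) * (s 1 * A1 + s 2 * A2) = 0 := by
      linear_combination (m' 1 : ℝ) * e1 - (m 1 : ℝ) * e2
    exact hind _ _ ((mul_eq_zero.mp e3).resolve_left hd')
  by_cases hAf : Af = ⊥
  · have hRm : Rm ≠ ⊥ := fun h => h0 ⟨hAf, h⟩
    have hA0 : finrank ℂ Af = 0 := by rw [hAf, finrank_bot]
    rw [hA0, zero_mul, zero_add] at hle
    by_cases hm : ∃ m ∈ Rm, m 0 ≠ 0
    · exfalso
      obtain ⟨m, hm, hm0⟩ := hm
      have hW0 : finrank ℂ W0 = 0 := by
        have : W0 = ⊥ := by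
          rw [Submodule.eq_bot_iff]
          intro c hc
          have h1 := (hW c hc).2 m hm
          have h2 : (m 0 : ℂ) ≠ 0 := by exact_mod_cast hm0
          funext i
          fin_cases i
          exact (mul_eq_zero.mp h1).resolve_left h2
        rw [this, finrank_bot]
      rw [hW0] at hle
      rcases Nat.lt_or_ge (finrank ℤ Rm) 2 with h | h
      · have : finrank ℤ Rm * (5 * a + 5) ≤ 1 * (5 * a + 5) := Nat.mul_le_mul_right _ (by omega)
        omega
      · obtain ⟨m, hm, m', hm', hd⟩ := exists_det h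
        have h1 := hdet m hm m' hm' hd
        have h2 : finrank ℤ G0 ≤ 1 := by
          refine rank_le_of_inj G0 (co1 0) ?_
          intro s hs hs0
          have h3 := co1_eq hs0
          obtain ⟨h4, h5⟩ := h1 s hs
          funext i
          fin_cases i
          · exact h3
          · exact h4
          · exact h5
        have h3 : 2 * (3 * a + 4) ≤ (3 - finrank ℤ G0) * (3 * a + 4) :=
          Nat.mul_le_mul_right _ (by omega)
        have h4 : finrank ℤ Rm * (5 * a + 5) ≤ 2 * (5 * a + 5) := Nat.mul_le_mul_right _ hR2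
        omega
    · push Not at hm
      right
      have h1 : finrank ℤ Rm ≤ 1 := by
        refine rank_le_of_inj Rm (co1 1) ?_
        intro s hs hs0
        have h3 := co1_eq hs0
        funext i
        fin_cases i
        · exact hm s hs
        · exact h3
      obtain ⟨m, hmm, hm0⟩ := exists_ne hRm
      have hm1 : m 1 ≠ 0 := by
        intro h
        apply hm0
        funext i
        fin_cases i
        · exact hm m hmm
        · exact h
      -- an element of `G0` with third coordinate zero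
      obtain ⟨s, hs, hs2, hs0⟩ : ∃ s ∈ G0, s 2 = 0 ∧ s ≠ 0 := by
        by_contra hcon
        push Not at hcon
        have h2 : finrank ℤ G0 ≤ 1 := by
          refine rank_le_of_inj G0 (co1 2) ?_
          intro s hs hs0
          exact hcon s hs (co1_eq hs0)
        have h3 : 2 * (3 * a + 4) ≤ (3 - finrank ℤ G0) * (3 * a + 4) :=
          Nat.mul_le_mul_right _ (by omega)
        have h4 : finrank ℤ Rm * (5 * a + 5) ≤ 1 * (5 * a + 5) := Nat.mul_le_mul_right _ h1
        omega
      have h4 := (hG s hs).2 m hmm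
      rw [hm m hmm, hs2] at h4
      have h5 : (m 1 : ℝ) ≠ 0 := by exact_mod_cast hm1
      have h6 : (s 0 : ℝ) * T + s 1 * R1 = 0 := by
        have : (m 1 : ℝ) * (s 0 * T + s 1 * R1) = 0 := by
          push_cast at h4
          linear_combination h4
        exact (mul_eq_zero.mp this).resolve_left h5
      refine ⟨s 0, s 1, ?_, h6⟩
      intro h7
      rw [h7] at h6
      push_cast at h6
      rw [zero_mul, add_zero] at h6
      have h8 : (s 0 : ℝ) = 0 := (mul_eq_zero.mp h6).resolve_right hT
      apply hs0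
      funext i
      fin_cases i
      · exact_mod_cast h8
      · exact h7
      · exact hs2
  · obtain ⟨v, hv, hv0⟩ := Submodule.exists_mem_ne_zero_of_ne_bot hAf
    have hv00 : v 0 ≠ 0 := by
      intro h
      apply hv0
      funext i
      fin_cases i
      exact h
    have hW0 : finrank ℂ W0 = 0 := by
      have : W0 = ⊥ := by
        rw [Submodule.eq_bot_iff]
        intro c hc
        funext i
        fin_cases i
        exact (mul_eq_zero.mp ((hW c hc).1 v hv)).resolve_left hv00
      rw [this, finrank_bot]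
    rw [hW0] at hle
    have hs0 : ∀ s ∈ G0, s 0 = 0 := by
      intro s hs
      have h1 := (hG s hs).1 v hv
      have h2 := (mul_eq_zero.mp h1).resolve_left hv00
      exact_mod_cast h2
    have hAle : finrank ℂ Af * (8 * a + 9) ≤ 1 * (8 * a + 9) := Nat.mul_le_mul_right _ hA1
    have hG2 : finrank ℤ G0 ≤ 2 := by
      refine rank_le_of_inj G0 (co2 1 2) ?_
      intro s hs hs'
      obtain ⟨h1, h2⟩ := co2_eq hs'
      funext i
      fin_cases i
      · exact hs0 s hs
      · exact h1
      · exact h2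
    rcases Nat.lt_or_ge (finrank ℤ Rm) 2 with h | h
    · rcases Nat.lt_or_ge (finrank ℤ Rm) 1 with h' | h'
      · exfalso
        have h3 : 1 * (3 * a + 4) ≤ (3 - finrank ℤ G0) * (3 * a + 4) :=
          Nat.mul_le_mul_right _ (by omega)
        have h4 : finrank ℤ Rm = 0 := by omega
        rw [h4] at hle
        omega
      · left
        have hRm : Rm ≠ ⊥ := by
          intro hb
          rw [hb, NP.rank_bot] at h'
          omega
        obtain ⟨m, hmm, hm0⟩ := exists_ne hRm
        have hG2' : 2 ≤ finrank ℤ G0 := by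
          by_contra hc
          have h3 : 2 * (3 * a + 4) ≤ (3 - finrank ℤ G0) * (3 * a + 4) :=
            Nat.mul_le_mul_right _ (by omega)
          have h4 : finrank ℤ Rm * (5 * a + 5) ≤ 1 * (5 * a + 5) :=
            Nat.mul_le_mul_right _ (by omega)
          omega
        have hrel : ∀ s ∈ G0, (s 1 : ℝ) * (m 0 * A1 + m 1 * R1) +
            s 2 * (m 0 * A2 + m 1 * R2) = 0 := by
          intro s hs
          have := (hG s hs).2 m hmm
          rw [hs0 s hs] at this
          push_cast at this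
          linear_combination this
        have hu : (m 0 : ℝ) * A1 + m 1 * R1 = 0 := by
          by_contra hu
          have h2 : finrank ℤ G0 ≤ 1 := by
            refine rank_le_of_inj G0 (co1 2) ?_
            intro s hs hs'
            have h3 := co1_eq hs'
            have h4 := hrel s hs
            rw [h3] at h4
            have h5 : (s 1 : ℝ) * (m 0 * A1 + m 1 * R1) = 0 := by
              push_cast at h4
              linear_combination h4
            have h6 : (s 1 : ℝ) = 0 := (mul_eq_zero.mp h5).resolve_right hu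
            funext i
            fin_cases i
            · exact hs0 s hs
            · exact_mod_cast h6
            · exact h3
          omega
        refine ⟨m 0, m 1, ?_, hu⟩
        intro h1
        rw [h1] at hu
        have h2 : ((m 0 : ℤ) : ℝ) * A1 + ((0 : ℤ) : ℝ) * A2 = 0 := by
          push_cast at hu ⊢
          linear_combination hu
        have h3 := (hind _ _ h2).1
        apply hm0
        funext i
        fin_cases i
        · exact h3
        · exact h1
    · exfalso
      obtain ⟨m, hm, m', hm', hd⟩ := exists_det h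
      have h1 := hdet m hm m' hm' hd
      have h2 : G0 = ⊥ := by
        rw [AddSubgroup.eq_bot_iff_forall]
        intro s hs
        obtain ⟨h4, h5⟩ := h1 s hs
        funext i
        fin_cases i
        · exact hs0 s hs
        · exact h4
        · exact h5
      rw [h2, NP.rank_bot] at hle
      have h4 : finrank ℤ Rm * (5 * a + 5) ≤ 2 * (5 * a + 5) := Nat.mul_le_mul_right _ hR2
      omega

end Pool.Agent.L0h53.PL
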