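import Mathlib
import Pool.Agent.L0h53.NP.Base
import Pool.Agent.L0h53.NP.PiCore
import Pool.Agent.L0h53.NP.CoreG
import Pool.Agent.L0h53.PL.Cases

set_option autoImplicit false

/-! The configuration `(1, 1, c)`, `(0, a, r)`, `(0, a', r')` in `G_a × G_m^2`. -/

namespace Pool.Agent.L0h53.PL

open Finset Module Pool.Agent.H301R2.TR Pool.Agent.L0h39.QA Pool.Agent.L0h53.NP

theorem max_mul {A T B : ℝ} (hA : A ≤ B) (hT : T ≤ B) (hAT : A * T ≤ B) (h1 : 1 ≤ B) :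
    max 1 A * max 1 T ≤ B := by
  rcases le_total 1 A with h | h <;> rcases le_total 1 T with h' | h'
  · rw [max_eq_right h, max_eq_right h']; exact hAT
  · rw [max_eq_right h, max_eq_left h', mul_one]; exact hA
  · rw [max_eq_left h, max_eq_right h', one_mul]; exact hT
  · rw [max_eq_left h, max_eq_left h', mul_one]; exact h1

theorem coreL (κ' : ℝ) (hκ' : 9 < κ') : ∃ C : ℝ, 0 < C ∧ ∀ H : ℝ, 3 ≤ H →
    ∀ c a0 a1 r0 r1 : ℚ, 0 < c → 0 < a0 → 0 < a1 → 0 < r0 → 0 < r1 → HtLe H c → HtLe H a0 →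
    HtLe H a1 → HtLe H r0 → HtLe H r1 → Real.log c ≠ 0 →
    |Real.exp (Real.log c * Real.log a0) - r0| ≤ Real.exp (-(C * Real.log H ^ κ')) →
    |Real.exp (Real.log c * Real.log a1) - r1| ≤ Real.exp (-(C * Real.log H ^ κ')) →
    |Real.log a0 * Real.log c| ≤ Real.log H + 1 → |Real.log a1 * Real.log c| ≤ Real.log H + 1 →
    (∀ s1 s2 : ℤ, (s1 : ℝ) * Real.log a0 + s2 * Real.log a1 = 0 → s1 = 0 ∧ s2 = 0) →
    (∃ m0 m1 : ℤ, m1 ≠ 0 ∧ (m0 : ℝ) * Real.log a0 + m1 * Real.log r0 = 0) ∨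
      ∃ s0 s1 : ℤ, s1 ≠ 0 ∧ (s0 : ℝ) * Real.log c + s1 * Real.log r0 = 0 := by
  obtain ⟨a, ha1, haκ⟩ := exists_ratio 9 9 κ' (by exact_mod_cast hκ')
  obtain ⟨C1, hC1, n0, hmain⟩ := obstructionU (l := 3) (r := 1) gamPi (8 * a + 9) (5 * a + 5) (3 * a + 4)
    (9 * a + 8) a 1 1 (by norm_num) (by norm_num) (by norm_num) (by ring) (by ring) ha1
    (by ring_nf; omega)
  obtain ⟨C, hC, hCn⟩ := choose_nU a (9 * a + 9) ha1 κ' haκ C1 hC1 n0 6 (by norm_num)
  refine ⟨C, hC, ?_⟩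
  intro H hH c a0 a1 r0 r1 hcp ha0p ha1p hr0p hr1p hcH ha0H ha1H hr0H hr1H hT0 hap0 hap1 hAT0 hAT1 hind
  obtain ⟨n, hn0, hn1, hnΛ, hnε⟩ := hCn H hH
  have hlog : 1 ≤ Real.log H := by
    rw [Real.le_log_iff_exp_le (by linarith)]
    have := Real.exp_one_lt_d9
    linarith
  obtain ⟨L, hL⟩ : ∃ L, L = Real.log H := ⟨_, rfl⟩
  rw [← hL] at hlog hnΛ hnε hap0 hap1 hAT0 hAT1
  have hexpΛ : Real.exp (6 * L) = H ^ 6 := by
    rw [show (6 : ℝ) * L = ((6 : ℕ) : ℝ) * L by norm_num, Real.exp_nat_mul, hL,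
      Real.exp_log (by linarith)]
  obtain ⟨S, hS⟩ : ∃ S, S = Real.sqrt (L + 1) := ⟨_, rfl⟩
  have hS2 : S ^ 2 = L + 1 := by rw [hS]; exact Real.sq_sqrt (by linarith)
  have hS0 : 0 ≤ S := by rw [hS]; exact Real.sqrt_nonneg _
  have hS1 : 1 ≤ S := by nlinarith
  have hSpos : 0 < S := by linarith
  obtain ⟨T, hT⟩ : ∃ T, T = Real.log c := ⟨_, rfl⟩
  rw [← hT] at hT0 hap0 hap1 hAT0 hAT1
  have hlogle : ∀ q : ℚ, 0 < q → HtLe H q → |Real.log q| ≤ L := fun q hq hqH => by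
    rw [hL]; exact log_le_of_ht' hq hqH
  have hTL : |T| ≤ L := by rw [hT]; exact hlogle c hcp hcH
  -- scaling
  obtain ⟨Mx, hMx⟩ : ∃ Mx, Mx = max 1 |T| := ⟨_, rfl⟩
  have hMx1 : 1 ≤ Mx := by rw [hMx]; exact le_max_left _ _
  have hMxT : |T| ≤ Mx := by rw [hMx]; exact le_max_right _ _
  have hMxpos : 0 < Mx := by linarith
  obtain ⟨u, hu⟩ : ∃ u, u = S / Mx := ⟨_, rfl⟩
  have hupos : 0 < u := by rw [hu]; positivity
  have huS : u ≤ S := by
    rw [hu, div_le_iff₀ hMxpos]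
    nlinarith
  have huT : u * |T| ≤ S := by
    rw [hu, div_mul_eq_mul_div, div_le_iff₀ hMxpos]
    exact mul_le_mul_of_nonneg_left hMxT hS0
  have huA : ∀ A : ℝ, |A| ≤ L → |A * T| ≤ L + 1 → |A| / u ≤ S ∧ 1 / u ≤ S := by
    intro A hA hAT
    have h1 : max 1 |A| * max 1 |T| ≤ L + 1 :=
      max_mul (by linarith) (by linarith) (by rw [← abs_mul]; exact hAT) (by linarith)
    rw [← hMx, ← hS2] at h1
    have h2 : |A| * Mx ≤ S ^ 2 :=
      (mul_le_mul_of_nonneg_right (le_max_right _ _) hMxpos.le).trans h1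
    have h3 : 1 * Mx ≤ S ^ 2 :=
      (mul_le_mul_of_nonneg_right (le_max_left _ _) hMxpos.le).trans h1
    constructor
    · rw [div_le_iff₀ hupos, hu]
      rw [show S * (S / Mx) = S ^ 2 / Mx by ring, le_div_iff₀ hMxpos]
      exact h2
    · rw [div_le_iff₀ hupos, hu]
      rw [show S * (S / Mx) = S ^ 2 / Mx by ring, le_div_iff₀ hMxpos]
      exact h3
  have hune : (u : ℂ) ≠ 0 := by
    have : u ≠ 0 := hupos.ne'
    exact_mod_cast this
  let φ : ℚ →ₐ[ℚ] ℂ := Algebra.ofId ℚ ℂ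
  have hφ : ∀ q : ℚ, φ q = (q : ℂ) := fun q => eq_ratCast φ q
  let d : ℕ := c.den * (a0.den * (a1.den * (r0.den * r1.den)))
  -- the points
  let x : Fin 1 → Fin 2 → ℂ := fun _ => ![(u : ℂ), (u : ℂ) * (T : ℂ)]
  let y : Fin 1 → Fin 3 → ℂ := fun _ => ![1 / (u : ℂ), (Real.log a0 : ℂ) / (u : ℂ),
    (Real.log a1 : ℂ) / (u : ℂ)]
  let ω : Fin 1 → Fin 3 → ℂ := fun _ => ![1, 0, 0]
  let α : Fin 1 → Fin 3 → ℚ := fun _ => ![1, 0, 0]
  let χ : Fin 2 → Fin 3 → ℚ := ![![1, a0, a1], ![c, r0, r1]]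
  let E : Fin 2 → Fin 3 → ℂ := ![![0, (Real.log a0 : ℂ), (Real.log a1 : ℂ)],
    ![(T : ℂ), (T : ℂ) * (Real.log a0 : ℂ), (T : ℂ) * (Real.log a1 : ℂ)]]
  let Tg : Fin 2 → Fin 3 → ℂ := ![![1, (a0 : ℂ), (a1 : ℂ)],
    ![(c : ℂ), ((Real.exp (T * Real.log a0) : ℝ) : ℂ), ((Real.exp (T * Real.log a1) : ℝ) : ℂ)]]
  have hsum : ∀ j p, ∑ ρ, x ρ j * y ρ p + ∑ i, ((gamPi i j : ℤ) : ℂ) * ω i p = E j p := by
    intro j p
    fin_cases j <;> fin_cases p <;> simp [x, y, ω, E, gamPi] <;> field_simp <;> ring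
  have hcR : (0 : ℝ) < c := by exact_mod_cast hcp
  have ha0R : (0 : ℝ) < a0 := by exact_mod_cast ha0p
  have ha1R : (0 : ℝ) < a1 := by exact_mod_cast ha1p
  have hr0R : (0 : ℝ) < r0 := by exact_mod_cast hr0p
  have hr1R : (0 : ℝ) < r1 := by exact_mod_cast hr1p
  have hexpq : ∀ q : ℚ, (0 : ℝ) < q → Complex.exp (Real.log q : ℂ) = (q : ℂ) := by
    intro q hq
    rw [← Complex.ofReal_exp, Real.exp_log hq]; norm_cast
  have hexpE : ∀ j p, Complex.exp (E j p) = Tg j p := by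
    intro j p
    fin_cases j <;> fin_cases p
    · simp [E, Tg]
    · exact hexpq a0 ha0R
    · exact hexpq a1 ha1R
    · change Complex.exp (T : ℂ) = (c : ℂ)
      rw [hT]; exact hexpq c hcR
    · simp [E, Tg]
    · simp [E, Tg]
  have hqle : ∀ q : ℚ, 0 < q → HtLe H q → ‖((q : ℚ) : ℂ)‖ ≤ H + 1 := by
    intro q hq hqH
    rw [norm_ratCast _ hq]
    have := le_of_ht hqH
    linarith
  have hap : ∀ t : ℝ, |t| ≤ Real.exp (-(C * L ^ κ')) → |t| ≤ 1 := by
    intro t ht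
    refine ht.trans ?_
    rw [Real.exp_le_one_iff]
    have : 0 ≤ L ^ κ' := Real.rpow_nonneg (by linarith) _
    nlinarith
  have hexple : ∀ (q : ℚ) (t : ℝ), 0 < q → HtLe H q →
      |Real.exp t - q| ≤ Real.exp (-(C * L ^ κ')) →
      ‖((Real.exp t : ℝ) : ℂ)‖ ≤ H + 1 := by
    intro q t hq hqH h
    rw [Complex.norm_real, Real.norm_eq_abs, abs_of_pos (Real.exp_pos _)]
    have e1 := (abs_le.mp (hap _ h)).2
    have := le_of_ht hqH
    linarith
  have hRT : ∀ j p, ‖Tg j p‖ ≤ H + 1 := by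
    intro j p
    fin_cases j <;> fin_cases p
    · simp [Tg]; linarith
    · exact hqle a0 ha0p ha0H
    · exact hqle a1 ha1p ha1H
    · exact hqle c hcp hcH
    · exact hexple r0 _ hr0p hr0H hap0
    · exact hexple r1 _ hr1p hr1H hap1
  have hx : ∀ ρ j, ‖x ρ j‖ ≤ S := by
    intro ρ j
    fin_cases j
    · change ‖(u : ℂ)‖ ≤ S
      rw [Complex.norm_real, Real.norm_eq_abs, abs_of_pos hupos]
      exact huS
    · change ‖(u : ℂ) * (T : ℂ)‖ ≤ S
      rw [norm_mul, Complex.norm_real, Complex.norm_real, Real.norm_eq_abs, Real.norm_eq_abs,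
        abs_of_pos hupos]
      exact huT
  have hlogS : ∀ q : ℚ, 0 < q → HtLe H q → |Real.log q * T| ≤ L + 1 →
      ‖(Real.log q : ℂ) / (u : ℂ)‖ ≤ S := by
    intro q hq hqH h
    rw [norm_div, Complex.norm_real, Complex.norm_real, Real.norm_eq_abs, Real.norm_eq_abs,
      abs_of_pos hupos]
    exact (huA _ (hlogle q hq hqH) h).1
  have hy : ∀ ρ p, ‖y ρ p‖ ≤ S := by
    intro ρ p
    fin_cases p
    · change ‖(1 : ℂ) / (u : ℂ)‖ ≤ S
      rw [norm_div, norm_one, Complex.norm_real, Real.norm_eq_abs, abs_of_pos hupos]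
      exact (huA _ (hlogle a0 ha0p ha0H) hAT0).2
    · exact hlogS a0 ha0p ha0H hAT0
    · exact hlogS a1 ha1p ha1H hAT1
  have hω : ∀ i p, ‖ω i p‖ ≤ 1 := by
    intro i p
    fin_cases p <;> simp [ω]
  have hH6 : H + 1 ≤ H ^ 6 := by
    have : H ^ 6 = H * H ^ 5 := by ring
    have : (243 : ℝ) ≤ H ^ 5 := by
      calc (243 : ℝ) = 3 ^ 5 := by norm_num
        _ ≤ H ^ 5 := pow_le_pow_left₀ (by norm_num) hH 5
    nlinarith
  have hdpos : 0 < d := by
    simp only [d]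
    exact Nat.mul_pos c.pos (Nat.mul_pos a0.pos (Nat.mul_pos a1.pos (Nat.mul_pos r0.pos r1.pos)))
  have hdH : (d : ℝ) ≤ H ^ 6 := by
    have h5 : (d : ℝ) ≤ H ^ 5 := by
      simp only [d]
      push_cast
      calc (c.den : ℝ) * (a0.den * (a1.den * (r0.den * r1.den))) ≤ H * (H * (H * (H * H))) := by
            gcongr
            · exact hcH.2
            · exact ha0H.2
            · exact ha1H.2
            · exact hr0H.2
            · exact hr1H.2
        _ = H ^ 5 := by ring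
    exact h5.trans (pow_le_pow_right₀ (by linarith) (by norm_num))
  have hne : ∀ j p, χ j p ≠ 0 := by
    intro j p
    fin_cases j <;> fin_cases p
    · exact one_ne_zero
    · exact ha0p.ne'
    · exact ha1p.ne'
    · exact hcp.ne'
    · exact hr0p.ne'
    · exact hr1p.ne'
  have hpos : ∀ j p, 0 < χ j p := by
    intro j p
    fin_cases j <;> fin_cases p
    · exact one_pos
    · exact ha0p
    · exact ha1p
    · exact hcp
    · exact hr0p
    · exact hr1p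
  have hχle : ∀ j p, ((χ j p : ℚ) : ℝ) ≤ H + 1 := by
    intro j p
    fin_cases j <;> fin_cases p
    · change ((1 : ℚ) : ℝ) ≤ H + 1
      push_cast; linarith
    · exact (le_of_ht ha0H).trans (by linarith)
    · exact (le_of_ht ha1H).trans (by linarith)
    · exact (le_of_ht hcH).trans (by linarith)
    · exact (le_of_ht hr0H).trans (by linarith)
    · exact (le_of_ht hr1H).trans (by linarith)
  obtain ⟨ε, hε⟩ : ∃ ε : ℝ, ε = (1 / 4) ^ (n ^ (9 * a + 9)) := ⟨_, rfl⟩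
  have hε0 : 0 ≤ ε := by rw [hε]; positivity
  have hαε : ∀ i p, ‖((α i p : ℚ) : ℂ) - ω i p‖ ≤ ε := by
    intro i p
    fin_cases p
    · change ‖((1 : ℚ) : ℂ) - 1‖ ≤ _
      rw [Rat.cast_one, sub_self, norm_zero]; exact hε0
    · change ‖((0 : ℚ) : ℂ) - 0‖ ≤ _
      rw [Rat.cast_zero, sub_self, norm_zero]; exact hε0
    · change ‖((0 : ℚ) : ℂ) - 0‖ ≤ _
      rw [Rat.cast_zero, sub_self, norm_zero]; exact hε0
  have hTε : ∀ j p, ‖((χ j p : ℚ) : ℂ) - Tg j p‖ ≤ ε := by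
    intro j p
    fin_cases j <;> fin_cases p
    · change ‖((1 : ℚ) : ℂ) - 1‖ ≤ _
      rw [Rat.cast_one, sub_self, norm_zero]; exact hε0
    · change ‖((a0 : ℚ) : ℂ) - (a0 : ℂ)‖ ≤ _
      rw [sub_self, norm_zero]; exact hε0
    · change ‖((a1 : ℚ) : ℂ) - (a1 : ℂ)‖ ≤ _
      rw [sub_self, norm_zero]; exact hε0
    · change ‖((c : ℚ) : ℂ) - (c : ℂ)‖ ≤ _
      rw [sub_self, norm_zero]; exact hε0
    · change ‖((r0 : ℚ) : ℂ) - ((Real.exp (T * Real.log a0) : ℝ) : ℂ)‖ ≤ _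
      rw [norm_sub_rev, show ((r0 : ℚ) : ℂ) = ((r0 : ℝ) : ℂ) by norm_cast,
        ← Complex.ofReal_sub, Complex.norm_real, Real.norm_eq_abs, hε]
      exact hap0.trans hnε
    · change ‖((r1 : ℚ) : ℂ) - ((Real.exp (T * Real.log a1) : ℝ) : ℂ)‖ ≤ _
      rw [norm_sub_rev, show ((r1 : ℚ) : ℂ) = ((r1 : ℝ) : ℂ) by norm_cast,
        ← Complex.ofReal_sub, Complex.norm_real, Real.norm_eq_abs, hε]
      exact hap1.trans hnε
  obtain ⟨Af, Rm, W0, G0, q1, q2, q3, q4⟩ := hmain n hn0 ℚ φ α χ x y ω (6 * L) (H + 1)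
    ε S d hS1 (by nlinarith) hx hy
    (fun i p => (hω i p).trans hS1)
    (fun i j => by
      fin_cases j <;> simp [gamPi] <;> linarith)
    hnΛ (by linarith) (by linarith) (by rw [hexpΛ]; exact hH6) hdpos
    (by rw [hexpΛ]; exact hdH) (by rw [Module.finrank_self]) hε0
    (by rw [show 8 * a + 9 + a = 9 * a + 9 by ring, hε])
    (fun i p => by
      fin_cases p
      · exact (IntD.of_int (by exact isIntegral_one)).mono (by omega)
      · exact (IntD.of_int (by exact isIntegral_zero)).mono (by omega)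
      · exact (IntD.of_int (by exact isIntegral_zero)).mono (by omega))
    (fun j p => by
      fin_cases j <;> fin_cases p
      · exact (IntD.of_int (by exact isIntegral_one)).mono (by omega)
      · exact rat_intD (q := a0) (Dvd.dvd.mul_left (Dvd.intro _ rfl) _)
      · exact rat_intD (q := a1) (Dvd.dvd.mul_left (Dvd.dvd.mul_left (Dvd.intro _ rfl) _) _)
      · exact rat_intD (q := c) (Dvd.intro _ rfl)
      · exact rat_intD (q := r0)
          (Dvd.dvd.mul_left (Dvd.dvd.mul_left (Dvd.dvd.mul_left (Dvd.intro _ rfl) _) _) _)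
      · exact rat_intD (q := r1)
          (Dvd.dvd.mul_left (Dvd.dvd.mul_left (Dvd.dvd.mul_left (Dvd.intro_left _ rfl) _) _) _))
    (fun τ' i p => by
      rw [eq_ratCast τ' (α i p)]
      fin_cases p
      · change ‖((1 : ℚ) : ℂ)‖ ≤ H + 1
        rw [Rat.cast_one, norm_one]; linarith
      · change ‖((0 : ℚ) : ℂ)‖ ≤ H + 1
        rw [Rat.cast_zero, norm_zero]; linarith
      · change ‖((0 : ℚ) : ℂ)‖ ≤ H + 1
        rw [Rat.cast_zero, norm_zero]; linarith)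
    (fun τ' j p => by
      rw [eq_ratCast τ' (χ j p), norm_ratCast _ (hpos j p)]
      exact hχle j p)
    (fun i p => (hω i p).trans (by linarith))
    (fun j p => by rw [hsum, hexpE]; exact hRT j p)
    (fun i p => by
      have h2 := hαε i p
      rw [← hφ] at h2
      exact h2)
    (fun j p => by
      rw [hsum, hexpE]
      have h2 := hTε j p
      rw [← hφ] at h2
      exact h2)
    hne
  rw [← hT]
  refine casesL (a := a) Af Rm W0 G0 T (Real.log a0) (Real.log a1) (Real.log r0) (Real.log r1) q1 ?_ ?_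
    hT0 hind q4
  · intro c' hc
    obtain ⟨e1, e2⟩ := (q2 c').mp hc
    refine ⟨fun v hv => by simpa using e1 v hv, fun m hm => ?_⟩
    have e3 := e2 m hm
    simp [gamPi] at e3
    rcases e3 with e3 | e3
    · rw [e3]; simp
    · rw [e3]; simp
  · intro s hs
    obtain ⟨e1, e2⟩ := (q3 s).mp hs
    refine ⟨fun v hv => ?_, fun m hm => ?_⟩
    · have e3 := e1 v hv
      have e3' : ∑ i : Fin 1, v i * ∑ p : Fin 3, φ (α i p) * (s p : ℂ) = 0 := e3
      simp only [hφ] at e3'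
      simp only [Finset.univ_unique, Fin.default_eq_zero, Finset.sum_singleton,
        Fin.sum_univ_three] at e3'
      change v 0 * (((1 : ℚ) : ℂ) * (s 0 : ℂ) + ((0 : ℚ) : ℂ) * (s 1 : ℂ) +
        ((0 : ℚ) : ℂ) * (s 2 : ℂ)) = 0 at e3'
      push_cast at e3'
      linear_combination e3'
    · have e3 := e2 m hm
      have e3' : ∏ j : Fin 2, (∏ p : Fin 3, (φ (χ j p)) ^ s p) ^ m j = 1 := e3
      simp only [hφ] at e3'
      clear e3
      have e3 := e3'
      rw [Fin.prod_univ_two, Fin.prod_univ_three, Fin.prod_univ_three] at e3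
      change (((1 : ℚ) : ℂ) ^ s 0 * (a0 : ℂ) ^ s 1 * (a1 : ℂ) ^ s 2) ^ m 0 *
        ((c : ℂ) ^ s 0 * (r0 : ℂ) ^ s 1 * (r1 : ℂ) ^ s 2) ^ m 1 = 1 at e3
      have e5 : (((a0 : ℚ) : ℝ) ^ s 1 * ((a1 : ℚ) : ℝ) ^ s 2) ^ m 0 *
          (((c : ℚ) : ℝ) ^ s 0 * ((r0 : ℚ) : ℝ) ^ s 1 * ((r1 : ℚ) : ℝ) ^ s 2) ^ m 1 = 1 := by
        rw [Rat.cast_one, one_zpow, one_mul] at e3
        exact_mod_cast e3
      have e4 := congrArg Real.log e5
      rw [Real.log_one, Real.log_mul (by positivity) (by positivity), Real.log_zpow, Real.log_zpow,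
        Real.log_mul (by positivity) (by positivity), Real.log_mul (by positivity) (by positivity),
        Real.log_mul (by positivity) (by positivity),
        Real.log_zpow, Real.log_zpow, Real.log_zpow, Real.log_zpow, Real.log_zpow, ← hT] at e4
      linear_combination e4

end Pool.Agent.L0h53.PL
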