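import Mathlib
import Pool.Agent.L0h53.NP.Rel

set_option autoImplicit false

/-! A lower bound for `|v log x - u|`, `x` rational, `u, v` integers, from the Padé approximations
of the exponential function at the integer `m`. -/

namespace Pool.Agent.L0h53.PL

open intervalIntegral Real Pool.Agent.L0h53.NP

/-- `(x (1 - x))^n / n!` -/
noncomputable def f (n : ℕ) (x : ℝ) : ℝ := (x * (1 - x)) ^ n / (n.factorial : ℝ)

theorem f_continuous (n : ℕ) : Continuous (f n) := by
  unfold f; fun_prop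

theorem f_deriv (n : ℕ) (x : ℝ) : HasDerivAt (f (n + 1)) (f n x * (1 - 2 * x)) x := by
  have h1 : HasDerivAt (fun x : ℝ => x * (1 - x)) (1 - 2 * x) x := by
    have := (hasDerivAt_id x).mul ((hasDerivAt_const x (1 : ℝ)).sub (hasDerivAt_id x))
    refine this.congr_deriv ?_
    simp only [id, Pi.sub_apply]; ring
  have h2 := (h1.pow (n + 1)).div_const ((n + 1).factorial : ℝ)
  refine h2.congr_deriv ?_
  unfold f
  rw [Nat.factorial_succ]
  have : ((n : ℝ) + 1) ≠ 0 := by positivity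
  have h3 : (n.factorial : ℝ) ≠ 0 := by positivity
  push_cast
  field_simp

theorem u_f (n : ℕ) (x : ℝ) : x * (1 - x) * f n x = (n + 1) * f (n + 1) x := by
  unfold f
  rw [Nat.factorial_succ]
  have : ((n : ℝ) + 1) ≠ 0 := by positivity
  have h3 : (n.factorial : ℝ) ≠ 0 := by positivity
  push_cast
  field_simp
  ring

/-- the integrals -/
noncomputable def J (m n : ℕ) : ℝ := ∫ x in (0 : ℝ)..1, f n x * exp (m * x)

theorem exp_mul_deriv (m : ℕ) (x : ℝ) :
    HasDerivAt (fun x : ℝ => exp (m * x)) (m * exp (m * x)) x := by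
  have := ((hasDerivAt_id x).const_mul (m : ℝ)).exp
  refine this.congr_deriv ?_
  simp only [id]
  ring

theorem cont (m n : ℕ) : Continuous (fun x : ℝ => f n x * exp (m * x)) :=
  (f_continuous n).mul (by fun_prop)

theorem J_rec (m n : ℕ) : (m : ℝ) ^ 2 * J m (n + 2) = J m n - (4 * n + 6) * J m (n + 1) := by
  have hder : ∀ x : ℝ, HasDerivAt
      (fun x => ((m : ℝ) * f (n + 2) x - f (n + 1) x * (1 - 2 * x)) * exp (m * x))
      ((m : ℝ) ^ 2 * (f (n + 2) x * exp (m * x)) - f n x * exp (m * x) +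
        (4 * n + 6) * (f (n + 1) x * exp (m * x))) x := by
    intro x
    have h1 := (f_deriv (n + 1) x).const_mul (m : ℝ)
    have h2 := f_deriv n x
    have h3 : HasDerivAt (fun x : ℝ => 1 - 2 * x) (-2) x := by
      have := (hasDerivAt_const x (1 : ℝ)).sub ((hasDerivAt_id x).const_mul 2)
      refine this.congr_deriv ?_
      simp
    have h4 := (h1.sub (h2.mul h3)).mul (exp_mul_deriv m x)
    refine h4.congr_deriv ?_
    have hu := u_f n x
    simp only [Pi.sub_apply, Pi.mul_apply]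
    have e : f n x * (1 - 2 * x) * (1 - 2 * x) = f n x - 4 * ((n + 1) * f (n + 1) x) := by
      rw [← hu]; ring
    rw [e]
    ring
  have hcont : Continuous (fun x => (m : ℝ) ^ 2 * (f (n + 2) x * exp (m * x)) - f n x * exp (m * x) +
      (4 * n + 6) * (f (n + 1) x * exp (m * x))) := by
    have a := cont m (n + 2)
    have b := cont m (n + 1)
    have c := cont m n
    exact ((a.const_mul _).sub c).add (b.const_mul _)
  have h := integral_eq_sub_of_hasDerivAt (a := 0) (b := 1) (fun x _ => hder x)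
    (hcont.intervalIntegrable 0 1)
  have i0 : IntervalIntegrable (fun x => f n x * exp (m * x)) MeasureTheory.volume 0 1 :=
    (cont m n).intervalIntegrable 0 1
  have i1 : IntervalIntegrable (fun x => f (n + 1) x * exp (m * x)) MeasureTheory.volume 0 1 :=
    (cont m (n + 1)).intervalIntegrable 0 1
  have i2 : IntervalIntegrable (fun x => f (n + 2) x * exp (m * x)) MeasureTheory.volume 0 1 :=
    (cont m (n + 2)).intervalIntegrable 0 1
  rw [integral_add ((i2.const_mul _).sub i0) (i1.const_mul _), integral_sub (i2.const_mul _) i0,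
    integral_const_mul, integral_const_mul] at h
  have z1 : ((m : ℝ) * f (n + 2) 1 - f (n + 1) 1 * (1 - 2 * 1)) * exp (m * 1) -
      ((m : ℝ) * f (n + 2) 0 - f (n + 1) 0 * (1 - 2 * 0)) * exp (m * 0) = 0 := by
    unfold f; simp
  rw [z1] at h
  unfold J
  linarith

theorem J_zero (m : ℕ) (hm : 1 ≤ m) : (m : ℝ) * J m 0 = exp m - 1 := by
  have hder : ∀ x : ℝ, HasDerivAt (fun x => exp (m * x)) ((m : ℝ) * (f 0 x * exp (m * x))) x := by
    intro x
    refine (exp_mul_deriv m x).congr_deriv ?_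
    unfold f
    simp
  have h := integral_eq_sub_of_hasDerivAt (a := 0) (b := 1) (fun x _ => hder x)
    (((cont m 0).const_mul _).intervalIntegrable 0 1)
  rw [integral_const_mul] at h
  unfold J
  rw [h]
  simp

theorem J_one (m : ℕ) (hm : 1 ≤ m) : (m : ℝ) ^ 3 * J m 1 = (m - 2) * exp m + (m + 2) := by
  have hm0 : (m : ℝ) ≠ 0 := by positivity
  have hder : ∀ x : ℝ, HasDerivAt
      (fun x => ((m : ℝ) ^ 2 * (x * (1 - x)) - m * (1 - 2 * x) - 2) * exp (m * x))
      ((m : ℝ) ^ 3 * (f 1 x * exp (m * x))) x := by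
    intro x
    have h1 : HasDerivAt (fun x : ℝ => (m : ℝ) ^ 2 * (x * (1 - x)) - m * (1 - 2 * x) - 2)
        ((m : ℝ) ^ 2 * (1 - 2 * x) + 2 * m) x := by
      have e1 : HasDerivAt (fun x : ℝ => x * (1 - x)) (1 - 2 * x) x := by
        have := (hasDerivAt_id x).mul ((hasDerivAt_const x (1 : ℝ)).sub (hasDerivAt_id x))
        refine this.congr_deriv ?_
        simp only [id, Pi.sub_apply]; ring
      have e3 : HasDerivAt (fun x : ℝ => 1 - 2 * x) (-2) x := by
        have := (hasDerivAt_const x (1 : ℝ)).sub ((hasDerivAt_id x).const_mul 2)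
        refine this.congr_deriv ?_
        simp
      have := ((e1.const_mul ((m : ℝ) ^ 2)).sub (e3.const_mul (m : ℝ))).sub_const 2
      refine this.congr_deriv ?_
      ring
    refine (h1.mul (exp_mul_deriv m x)).congr_deriv ?_
    unfold f
    simp
    ring
  have h := integral_eq_sub_of_hasDerivAt (a := 0) (b := 1) (fun x _ => hder x)
    (((cont m 1).const_mul _).intervalIntegrable 0 1)
  rw [integral_const_mul] at h
  unfold J
  rw [h]
  simp
  ring

theorem J_pos (m n : ℕ) : 0 < J m n := by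
  unfold J
  apply intervalIntegral_pos_of_pos_on
  · exact (cont m n).intervalIntegrable 0 1
  · intro x hx
    have h1 : 0 < x * (1 - x) := mul_pos hx.1 (by linarith [hx.2])
    unfold f
    positivity
  · norm_num

theorem J_le (m n : ℕ) : J m n ≤ (1 / 4) ^ n / n.factorial * exp m := by
  have h : J m n ≤ ∫ _ in (0 : ℝ)..1, (1 / 4) ^ n / n.factorial * exp m := by
    unfold J
    apply integral_mono_on (by norm_num)
    · exact (cont m n).intervalIntegrable 0 1
    · exact continuous_const.intervalIntegrable 0 1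
    · intro x hx
      unfold f
      have h0 : 0 ≤ x * (1 - x) := mul_nonneg hx.1 (by linarith [hx.2])
      have h1 : x * (1 - x) ≤ 1 / 4 := by nlinarith [sq_nonneg (x - 1 / 2)]
      have h2 : exp (m * x) ≤ exp m := by
        apply exp_le_exp.mpr
        have : (m : ℝ) * x ≤ m * 1 := mul_le_mul_of_nonneg_left hx.2 (Nat.cast_nonneg m)
        linarith
      have h3 : (x * (1 - x)) ^ n ≤ (1 / 4) ^ n := pow_le_pow_left₀ h0 h1 n
      have h4 : (x * (1 - x)) ^ n / (n.factorial : ℝ) ≤ (1 / 4) ^ n / n.factorial := by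
        gcongr
      exact mul_le_mul h4 h2 (exp_pos _).le (by positivity)
  simpa using h

/-- numerators and denominators -/
def X (m : ℕ) (x0 x1 : ℤ) : ℕ → ℤ
  | 0 => x0
  | 1 => x1
  | (n + 2) => (m : ℤ) ^ 2 * X m x0 x1 n - (4 * n + 6) * X m x0 x1 (n + 1)

/-- the Padé remainders -/
noncomputable def K (m n : ℕ) : ℝ := (m : ℝ) ^ (2 * n + 1) * J m n

theorem K_rec (m n : ℕ) : K m (n + 2) = (m : ℝ) ^ 2 * K m n - (4 * n + 6) * K m (n + 1) := by
  unfold K
  have h := J_rec m n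
  have : (m : ℝ) ^ (2 * (n + 2) + 1) * J m (n + 2) =
      (m : ℝ) ^ (2 * n + 3) * ((m : ℝ) ^ 2 * J m (n + 2)) := by ring
  rw [this, h]
  ring

theorem K_eq (m : ℕ) (hm : 1 ≤ m) : ∀ n : ℕ,
    K m n = X m 1 (m - 2) n * exp m - X m 1 (-(m + 2)) n ∧
    K m (n + 1) = X m 1 (m - 2) (n + 1) * exp m - X m 1 (-(m + 2)) (n + 1) := by
  intro n
  induction n with
  | zero =>
    refine ⟨?_, ?_⟩
    · unfold K
      have := J_zero m hm
      simp only [X]
      push_cast
      rw [one_mul, ← this]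
      ring
    · unfold K
      have := J_one m hm
      simp only [X]
      push_cast
      norm_num
      rw [this]
      ring
  | succ n ih =>
    refine ⟨ih.2, ?_⟩
    rw [show n + 1 + 1 = n + 2 by ring, K_rec, ih.1, ih.2]
    simp only [X]
    push_cast
    ring

theorem det (m : ℕ) (n : ℕ) : X m 1 (m - 2) n * X m 1 (-(m + 2)) (n + 1) -
    X m 1 (m - 2) (n + 1) * X m 1 (-(m + 2)) n = (-(m : ℤ) ^ 2) ^ n * (-2 * m) := by
  induction n with
  | zero => simp only [X]; push_cast; ring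
  | succ n ih =>
    rw [show n + 1 + 1 = n + 2 by ring]
    have e1 : ∀ x0 x1 : ℤ, X m x0 x1 (n + 2) =
      (m : ℤ) ^ 2 * X m x0 x1 n - (4 * n + 6) * X m x0 x1 (n + 1) := fun x0 x1 => rfl
    have e2 : (-(m : ℤ) ^ 2) ^ (n + 1) * (-2 * m) =
        (-(m : ℤ) ^ 2) * ((-(m : ℤ) ^ 2) ^ n * (-2 * m)) := by rw [pow_succ]; ring
    rw [e1, e1, e2, ← ih]
    ring

theorem X_le (m : ℕ) (hm : 1 ≤ m) (N : ℕ) : ∀ n : ℕ,
    (n ≤ N → |((X m 1 (m - 2) n : ℤ) : ℝ)| ≤ ((m : ℝ) ^ 2 + 4 * N + 2) ^ n) ∧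
    (n + 1 ≤ N → |((X m 1 (m - 2) (n + 1) : ℤ) : ℝ)| ≤ ((m : ℝ) ^ 2 + 4 * N + 2) ^ (n + 1)) := by
  intro n
  have hmR : (1 : ℝ) ≤ m := by exact_mod_cast hm
  have hW : 1 ≤ (m : ℝ) ^ 2 + 4 * N + 2 := by nlinarith [Nat.cast_nonneg (α := ℝ) N]
  induction n with
  | zero =>
    refine ⟨fun _ => ?_, fun _ => ?_⟩
    · simp [X]
    · simp only [X]
      push_cast
      rw [pow_one, abs_le]
      have : (0 : ℝ) ≤ N := Nat.cast_nonneg N
      constructor <;> nlinarith
  | succ n ih =>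
    refine ⟨ih.2, fun hn => ?_⟩
    have h1 := ih.1 (by omega)
    have h2 := ih.2 (by omega)
    rw [show n + 1 + 1 = n + 2 by ring]
    have e1 : X m 1 (m - 2) (n + 2) =
      (m : ℤ) ^ 2 * X m 1 (m - 2) n - (4 * n + 6) * X m 1 (m - 2) (n + 1) := rfl
    rw [e1]
    push_cast
    obtain ⟨W, hWd⟩ : ∃ W, W = (m : ℝ) ^ 2 + 4 * N + 2 := ⟨_, rfl⟩
    rw [← hWd] at h1 h2 hW ⊢
    have hnN : (n : ℝ) + 2 ≤ N := by exact_mod_cast (by omega : n + 2 ≤ N)
    refine (abs_sub _ _).trans ?_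
    rw [abs_mul, abs_mul, abs_of_nonneg (by positivity : (0 : ℝ) ≤ (m : ℝ) ^ 2),
      abs_of_nonneg (by positivity : (0 : ℝ) ≤ 4 * (n : ℝ) + 6)]
    have h3 : W ^ n ≤ W ^ (n + 1) := pow_le_pow_right₀ hW (by omega)
    calc (m : ℝ) ^ 2 * |((X m 1 (m - 2) n : ℤ) : ℝ)| +
          (4 * n + 6) * |((X m 1 (m - 2) (n + 1) : ℤ) : ℝ)| ≤
          (m : ℝ) ^ 2 * W ^ (n + 1) + (4 * n + 6) * W ^ (n + 1) := by
            gcongr
            exact h1.trans h3
      _ = ((m : ℝ) ^ 2 + 4 * n + 6) * W ^ (n + 1) := by ring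
      _ ≤ W * W ^ (n + 1) := by
          apply mul_le_mul_of_nonneg_right _ (by positivity)
          rw [hWd]; linarith
      _ = W ^ (n + 2) := by ring

theorem K_le (m n : ℕ) (hm : 1 ≤ m) : K m n ≤ exp (3 * m ^ 2 - n) := by
  have hmR : (1 : ℝ) ≤ m := by exact_mod_cast hm
  unfold K
  have h1 := J_le m n
  have h2 : ((m : ℝ) ^ 2) ^ n / n.factorial ≤ exp ((m : ℝ) ^ 2) :=
    Real.pow_div_factorial_le_exp _ (by positivity) n
  have h3 : (1 / 4 : ℝ) ^ n ≤ exp (-n) := by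
    have : exp (-(n : ℝ)) = (exp (-1)) ^ n := by
      rw [← Real.exp_nat_mul]; ring_nf
    rw [this]
    apply pow_le_pow_left₀ (by norm_num)
    rw [Real.exp_neg, one_div]
    apply inv_anti₀ (exp_pos _)
    have := Real.exp_one_lt_d9
    linarith
  have h4 : (m : ℝ) ≤ exp m := by
    have := Real.add_one_le_exp (m : ℝ)
    linarith
  calc (m : ℝ) ^ (2 * n + 1) * J m n ≤ (m : ℝ) ^ (2 * n + 1) * ((1 / 4) ^ n / n.factorial * exp m) :=
        mul_le_mul_of_nonneg_left h1 (by positivity)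
    _ = m * (((m : ℝ) ^ 2) ^ n / n.factorial) * (1 / 4) ^ n * exp m := by
        rw [pow_succ, pow_mul]; ring
    _ ≤ exp m * exp ((m : ℝ) ^ 2) * exp (-n) * exp m := by
        gcongr
    _ = exp (2 * m + m ^ 2 - n) := by
        rw [← Real.exp_add, ← Real.exp_add, ← Real.exp_add]; ring_nf
    _ ≤ _ := by
        apply exp_le_exp.mpr
        nlinarith

/-- **Irrationality measure of `exp m`.** -/
theorem pade_lower (m : ℕ) (hm : 1 ≤ m) (h : ℝ) (hh : 0 ≤ h) (A B : ℤ) (hAB : A ≠ 0 ∨ B ≠ 0)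
    (hB : |(B : ℝ)| ≤ exp h) : ∃ N : ℕ, (N : ℝ) ≤ 3 * m ^ 2 + h + 3 ∧
      1 ≤ 2 * ((m : ℝ) ^ 2 + 4 * N + 2) ^ N * |B * exp m - A| := by
  obtain ⟨n, hn⟩ : ∃ n : ℕ, n = ⌈3 * (m : ℝ) ^ 2 + h + 1⌉₊ := ⟨_, rfl⟩
  have hn1 : 3 * (m : ℝ) ^ 2 + h + 1 ≤ n := by rw [hn]; exact Nat.le_ceil _
  have hn2 : (n : ℝ) ≤ 3 * m ^ 2 + h + 2 := by
    rw [hn]
    have := Nat.ceil_lt_add_one (by positivity : (0 : ℝ) ≤ 3 * (m : ℝ) ^ 2 + h + 1)
    linarith
  -- one of the two determinants is nonzero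
  obtain ⟨k, hkn, hkn', hk⟩ : ∃ k, n ≤ k ∧ k ≤ n + 1 ∧
      B * X m 1 (-(m + 2)) k - A * X m 1 (m - 2) k ≠ 0 := by
    by_contra hcon
    push Not at hcon
    have e1 := hcon n le_rfl (by omega)
    have e2 := hcon (n + 1) (by omega) le_rfl
    have e3 := det m n
    have hne : (-(m : ℤ) ^ 2) ^ n * (-2 * m) ≠ 0 := by
      have : (m : ℤ) ≠ 0 := by omega
      apply mul_ne_zero
      · apply pow_ne_zero
        apply neg_ne_zero.mpr
        exact pow_ne_zero _ this
      · omega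
    rcases hAB with h0 | h0
    · have : A * ((-(m : ℤ) ^ 2) ^ n * (-2 * m)) = 0 := by
        rw [← e3]
        linear_combination X m 1 (-(m + 2)) n * e2 - X m 1 (-(m + 2)) (n + 1) * e1
      exact (mul_ne_zero h0 hne) this
    · have : B * ((-(m : ℤ) ^ 2) ^ n * (-2 * m)) = 0 := by
        rw [← e3]
        linear_combination X m 1 (m - 2) n * e2 - X m 1 (m - 2) (n + 1) * e1
      exact (mul_ne_zero h0 hne) this
  refine ⟨n + 1, by push_cast; linarith, ?_⟩
  have hkR : (n : ℝ) ≤ k := by exact_mod_cast hkn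
  have hK0 : 0 ≤ K m k := by
    unfold K
    have := J_pos m k
    positivity
  have hK : |(B : ℝ)| * K m k ≤ 1 / 2 := by
    calc |(B : ℝ)| * K m k ≤ exp h * exp (3 * m ^ 2 - k) :=
          mul_le_mul hB (K_le m k hm) hK0 (exp_pos _).le
      _ = exp (h + (3 * m ^ 2 - k)) := by rw [← Real.exp_add]
      _ ≤ exp (-1) := by
          apply exp_le_exp.mpr
          linarith
      _ ≤ 1 / 2 := by
          rw [Real.exp_neg]
          have := Real.exp_one_gt_d9
          rw [inv_le_comm₀ (Real.exp_pos _) (by norm_num)]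
          linarith
  have h1 : (1 : ℝ) ≤ |((B * X m 1 (-(m + 2)) k - A * X m 1 (m - 2) k : ℤ) : ℝ)| := by
    have := Int.one_le_abs hk
    exact_mod_cast this
  have h2 : ((B * X m 1 (-(m + 2)) k - A * X m 1 (m - 2) k : ℤ) : ℝ) =
      X m 1 (m - 2) k * (B * exp m - A) - B * K m k := by
    rw [(K_eq m hm k).1]
    push_cast
    ring
  rw [h2] at h1
  have h3 : |(X m 1 (m - 2) k : ℝ) * (B * exp m - A) - B * K m k| ≤
      |(X m 1 (m - 2) k : ℝ)| * |B * exp m - A| + |(B : ℝ)| * K m k := by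
    refine (abs_sub _ _).trans ?_
    rw [abs_mul, abs_mul, abs_of_nonneg hK0]
  have h4 : |(X m 1 (m - 2) k : ℝ)| ≤ ((m : ℝ) ^ 2 + 4 * (n + 1 : ℕ) + 2) ^ (n + 1) := by
    refine ((X_le m hm (n + 1) k).1 hkn').trans ?_
    apply pow_le_pow_right₀ _ hkn'
    have : (1 : ℝ) ≤ m := by exact_mod_cast hm
    have h0 : (0 : ℝ) ≤ (n + 1 : ℕ) := Nat.cast_nonneg _
    nlinarith
  have h5 := mul_le_mul_of_nonneg_right h4 (abs_nonneg ((B : ℝ) * exp m - A))
  linarith

end Pool.Agent.L0h53.PL
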