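import Mathlib
import Pool.Agent.L0h53.NP.Rel
import Pool.Agent.L0h53.NP.PiMain
import Pool.Agent.L0h53.PL.Meas

set_option autoImplicit false

/-! A lower bound for `|v log x - u|`, `x` rational, `u, v` integers, with `|v|` small. -/

namespace Pool.Agent.L0h53.PL

open Real Pool.Agent.L0h53.NP

theorem exp_sub_one_le {t : ℝ} (ht : |t| ≤ 1) : |exp t - 1| ≤ 2 * |t| := by
  have := Real.abs_exp_sub_one_le ht
  linarith

theorem meas_aux (A B : ℕ) (hA : 0 < A) (hB : 0 < B) (h : ℝ) (hh : 0 ≤ h) (hBh : (B : ℝ) ≤ exp h)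
    (m : ℕ) (hm : 1 ≤ m) (hδ : |Real.log A - Real.log B - m| ≤ 1) :
    ∃ N : ℕ, (N : ℝ) ≤ 3 * m ^ 2 + h + 3 ∧
      1 ≤ 4 * ((m : ℝ) ^ 2 + 4 * N + 2) ^ N * exp (h + m) * |Real.log A - Real.log B - m| := by
  have hAR : (0 : ℝ) < A := by exact_mod_cast hA
  have hBR : (0 : ℝ) < B := by exact_mod_cast hB
  obtain ⟨N, hN, h1⟩ := pade_lower m hm h hh A B (Or.inl (by exact_mod_cast hA.ne'))
    (by push_cast; rw [abs_of_pos hBR]; exact hBh)
  refine ⟨N, hN, h1.trans ?_⟩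
  push_cast
  obtain ⟨δ, hδ'⟩ : ∃ δ, δ = Real.log A - Real.log B - m := ⟨_, rfl⟩
  rw [← hδ'] at hδ ⊢
  have h2 : (A : ℝ) = B * exp m * exp δ := by
    have : Real.log A = Real.log B + m + δ := by rw [hδ']; ring
    rw [← Real.exp_log hAR, this, Real.exp_add, Real.exp_add, Real.exp_log hBR]
  have h3 : |(B : ℝ) * exp m - A| ≤ exp (h + m) * (2 * |δ|) := by
    have e1 : (B : ℝ) * exp m - A = -((B : ℝ) * exp m * (exp δ - 1)) := by
      rw [h2]; ring
    rw [e1, abs_neg, abs_mul, abs_mul, abs_of_pos hBR, abs_of_pos (exp_pos _), Real.exp_add]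
    apply mul_le_mul
    · exact mul_le_mul_of_nonneg_right hBh (exp_pos _).le
    · exact exp_sub_one_le hδ
    · exact abs_nonneg _
    · positivity
  calc 2 * ((m : ℝ) ^ 2 + 4 * N + 2) ^ N * |(B : ℝ) * exp m - A| ≤
      2 * ((m : ℝ) ^ 2 + 4 * N + 2) ^ N * (exp (h + m) * (2 * |δ|)) :=
        mul_le_mul_of_nonneg_left h3 (by positivity)
    _ = _ := by ring

theorem meas_aux2 {L : ℝ} (hL : 1 ≤ L) (A B : ℕ) (hA : 0 < A) (hB : 0 < B)
    (hBh : (B : ℝ) ≤ exp (2 * L ^ 2))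
    (m : ℕ) (hm : 1 ≤ m) (hmL : (m : ℝ) ≤ 3 * L ^ 2) (hδ : |Real.log A - Real.log B - m| ≤ 1) :
    exp (-(300 * L ^ 5)) ≤ |Real.log A - Real.log B - m| := by
  obtain ⟨N, hN, h1⟩ := meas_aux A B hA hB (2 * L ^ 2) (by positivity) hBh m hm hδ
  have hL24 : L ^ 2 ≤ L ^ 4 := pow_le_pow_right₀ hL (by norm_num)
  have hL25 : L ^ 2 ≤ L ^ 5 := pow_le_pow_right₀ hL (by norm_num)
  have hL4 : 1 ≤ L ^ 4 := one_le_pow₀ hL
  have hL5 : 1 ≤ L ^ 5 := one_le_pow₀ hL
  have hmR : (0 : ℝ) ≤ m := Nat.cast_nonneg m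
  have hm2 : (m : ℝ) ^ 2 ≤ 9 * L ^ 4 := by
    calc (m : ℝ) ^ 2 ≤ (3 * L ^ 2) ^ 2 := pow_le_pow_left₀ hmR hmL 2
      _ = _ := by ring
  have hN' : (N : ℝ) ≤ 32 * L ^ 4 := by linarith
  have hW : (m : ℝ) ^ 2 + 4 * N + 2 ≤ exp (5 * L) := by
    have e1 : (m : ℝ) ^ 2 + 4 * N + 2 ≤ 139 * L ^ 4 := by linarith
    have e2 : L ≤ exp (L - 1) := by
      have := Real.add_one_le_exp (L - 1)
      linarith
    have e3 : L ^ 4 ≤ exp (4 * (L - 1)) := by
      have := pow_le_pow_left₀ (by linarith) e2 4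
      rw [← Real.exp_nat_mul] at this
      exact_mod_cast this
    have e4 : (139 : ℝ) ≤ exp 5 := by
      have h2 : exp 5 = (exp 1) ^ 5 := by rw [← Real.exp_nat_mul]; norm_num
      rw [h2]
      calc (139 : ℝ) ≤ 2.7 ^ 5 := by norm_num
        _ ≤ exp 1 ^ 5 := pow_le_pow_left₀ (by norm_num) (by have := Real.exp_one_gt_d9; linarith) 5
    calc (m : ℝ) ^ 2 + 4 * N + 2 ≤ 139 * L ^ 4 := e1
      _ ≤ exp 5 * exp (4 * (L - 1)) := mul_le_mul e4 e3 (by positivity) (exp_pos _).le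
      _ = exp (5 + 4 * (L - 1)) := by rw [← Real.exp_add]
      _ ≤ _ := by
          apply exp_le_exp.mpr
          linarith
  have hWN : ((m : ℝ) ^ 2 + 4 * N + 2) ^ N ≤ exp (160 * L ^ 5) := by
    calc ((m : ℝ) ^ 2 + 4 * N + 2) ^ N ≤ exp (5 * L) ^ N :=
          pow_le_pow_left₀ (by positivity) hW N
      _ = exp (N * (5 * L)) := by rw [← Real.exp_nat_mul]
      _ ≤ _ := by
          apply exp_le_exp.mpr
          calc (N : ℝ) * (5 * L) ≤ 32 * L ^ 4 * (5 * L) :=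
                mul_le_mul_of_nonneg_right hN' (by linarith)
            _ = _ := by ring
  have h4 : (4 : ℝ) ≤ exp 2 := by
    have h2 : exp 2 = (exp 1) ^ 2 := by rw [← Real.exp_nat_mul]; norm_num
    rw [h2]
    have := Real.exp_one_gt_d9
    nlinarith
  have h5 : 4 * ((m : ℝ) ^ 2 + 4 * N + 2) ^ N * exp (2 * L ^ 2 + m) ≤ exp (300 * L ^ 5) := by
    calc 4 * ((m : ℝ) ^ 2 + 4 * N + 2) ^ N * exp (2 * L ^ 2 + m) ≤
        exp 2 * exp (160 * L ^ 5) * exp (2 * L ^ 2 + m) := by gcongr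
      _ = exp (2 + 160 * L ^ 5 + (2 * L ^ 2 + m)) := by
          rw [← Real.exp_add, ← Real.exp_add]
      _ ≤ _ := by
          apply exp_le_exp.mpr
          linarith
  have h6 : 1 ≤ exp (300 * L ^ 5) * |Real.log A - Real.log B - m| :=
    h1.trans (mul_le_mul_of_nonneg_right h5 (abs_nonneg _))
  rw [Real.exp_neg, inv_le_iff_one_le_mul₀ (exp_pos _)]
  linarith

/-- **Lower bound for `|v log x - u|`.** -/
theorem log_measure {H : ℝ} (hH : 3 ≤ H) {x : ℚ} (hx : 0 < x) (hx1 : x ≠ 1) (hxH : HtLe H x)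
    (v u : ℤ) (hv : v ≠ 0) (hvL : |(v : ℝ)| ≤ 2 * Real.log H) :
    exp (-(300 * Real.log H ^ 5)) ≤ |v * Real.log x - u| := by
  have hlog : 1 ≤ Real.log H := by
    rw [Real.le_log_iff_exp_le (by linarith)]
    have := Real.exp_one_lt_d9
    linarith
  -- reduction to `v > 0`
  wlog hv0 : 0 < v generalizing v u
  · have := this (-v) (-u) (by omega) (by push_cast; rwa [abs_neg]) (by omega)
    refine this.trans (le_of_eq ?_)
    rw [← abs_neg]
    congr 1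
    push_cast
    ring
  obtain ⟨L, hL⟩ : ∃ L, L = Real.log H := ⟨_, rfl⟩
  rw [← hL] at hlog hvL ⊢
  obtain ⟨w, rfl⟩ : ∃ w : ℕ, v = w := ⟨v.toNat, by omega⟩
  push_cast at hvL ⊢
  have hw1 : 1 ≤ w := by omega
  have hw1R : (1 : ℝ) ≤ w := by exact_mod_cast hw1
  rw [abs_of_nonneg (by linarith)] at hvL
  have hlx : |Real.log x| ≤ L := by rw [hL]; exact log_le_of_ht (by linarith) hx hxH
  have hL5 : 1 ≤ L ^ 5 := one_le_pow₀ hlog
  have hLL : L ≤ L ^ 5 := by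
    calc L = L ^ 1 := (pow_one L).symm
      _ ≤ L ^ 5 := pow_le_pow_right₀ hlog (by norm_num)
  by_cases hδ : |(w : ℝ) * Real.log x - u| ≤ 1
  swap
  · push Not at hδ
    refine le_trans ?_ hδ.le
    rw [Real.exp_le_one_iff]
    linarith
  have huL : |(u : ℝ)| ≤ 3 * L ^ 2 := by
    have e1 : |(u : ℝ)| ≤ |(w : ℝ) * Real.log x| + |(w : ℝ) * Real.log x - u| := by
      have : (u : ℝ) = w * Real.log x - (w * Real.log x - u) := by ring
      calc |(u : ℝ)| = |w * Real.log x - (w * Real.log x - u)| := by rw [← this]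
        _ ≤ _ := abs_sub _ _
    rw [abs_mul, abs_of_nonneg (by linarith : (0 : ℝ) ≤ w)] at e1
    have e2 : (w : ℝ) * |Real.log x| ≤ 2 * L * L :=
      mul_le_mul hvL hlx (abs_nonneg _) (by linarith)
    nlinarith
  -- numerator and denominator
  have hnum : 0 < x.num := Rat.num_pos.mpr hx
  obtain ⟨P, hP⟩ : ∃ P : ℕ, (P : ℤ) = x.num := ⟨x.num.toNat, by omega⟩
  have hP0 : 0 < P := by omega
  obtain ⟨e1, e2⟩ := hxH
  rw [← hP] at e1
  push_cast at e1
  rw [abs_of_nonneg (Nat.cast_nonneg P)] at e1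
  have hlogx : Real.log x = Real.log P - Real.log x.den := by
    have hq1 : (x : ℝ) = (x.num : ℝ) / (x.den : ℝ) := by exact_mod_cast (Rat.num_div_den x).symm
    rw [hq1, ← hP]
    push_cast
    rw [Real.log_div (by positivity) (by have := x.pos; positivity)]
  have hHexp : H = exp L := by rw [hL, Real.exp_log (by linarith)]
  have hpow : ∀ k : ℕ, (k : ℝ) ≤ H → ((k ^ w : ℕ) : ℝ) ≤ exp (2 * L ^ 2) := by
    intro k hk
    push_cast
    calc (k : ℝ) ^ w ≤ exp L ^ w := pow_le_pow_left₀ (Nat.cast_nonneg k) (by rw [← hHexp]; exact hk) w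
      _ = exp (w * L) := by rw [← Real.exp_nat_mul]
      _ ≤ _ := by
          apply exp_le_exp.mpr
          nlinarith
  have hlogA : (w : ℝ) * Real.log x = Real.log ((P ^ w : ℕ) : ℝ) - Real.log ((x.den ^ w : ℕ) : ℝ) := by
    push_cast
    rw [Real.log_pow, Real.log_pow, hlogx]
    ring
  rcases lt_trichotomy u 0 with hu | hu | hu
  · obtain ⟨m, hm⟩ : ∃ m : ℕ, u = -(m : ℤ) := ⟨(-u).toNat, by omega⟩
    subst hm
    push_cast at huL hδ ⊢
    rw [hlogA] at hδ ⊢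
    have e3 : |Real.log ((P ^ w : ℕ) : ℝ) - Real.log ((x.den ^ w : ℕ) : ℝ) - -(m : ℝ)| =
        |Real.log ((x.den ^ w : ℕ) : ℝ) - Real.log ((P ^ w : ℕ) : ℝ) - m| := by
      rw [← abs_neg]
      congr 1
      ring
    rw [e3] at hδ ⊢
    rw [abs_neg, abs_of_nonneg (Nat.cast_nonneg m)] at huL
    exact meas_aux2 hlog _ _ (Nat.pow_pos x.pos) (Nat.pow_pos hP0) (hpow P e1) m (by omega) huL hδ
  · subst hu
    push_cast
    rw [sub_zero, abs_mul, abs_of_nonneg (by linarith : (0 : ℝ) ≤ w)]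
    have hxne : Real.log x ≠ 0 := fun h => hx1 (eq_one_of_log hx h)
    have h4 : Real.exp (-L) ≤ |Real.log x| := by
      have := linform_lower (Finset.univ : Finset (Fin 1)) (fun _ => x) (fun _ => hx)
        (fun _ => 1) (H := H) (by linarith) (fun _ => ⟨by rw [← hP]; push_cast; rwa [abs_of_nonneg (Nat.cast_nonneg P)], e2⟩)
        1 (by simp) (by simpa using hxne)
      simpa [hL] using this
    calc exp (-(300 * L ^ 5)) ≤ exp (-L) := by
          apply exp_le_exp.mpr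
          linarith
      _ ≤ |Real.log x| := h4
      _ ≤ _ := by
          have := abs_nonneg (Real.log x)
          nlinarith
  · obtain ⟨m, hm⟩ : ∃ m : ℕ, u = (m : ℤ) := ⟨u.toNat, by omega⟩
    subst hm
    push_cast at huL hδ ⊢
    rw [hlogA] at hδ ⊢
    rw [abs_of_nonneg (Nat.cast_nonneg m)] at huL
    exact meas_aux2 hlog _ _ (Nat.pow_pos hP0) (Nat.pow_pos x.pos) (hpow _ e2) m (by omega) huL hδ

end Pool.Agent.L0h53.PL
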