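import Mathlib
import Pool.Agent.L0h53.NP.PiMain
import Pool.Agent.L0h53.PL.Core
import Pool.Agent.L0h53.PL.LogM

set_option autoImplicit false

/-! Products of two logarithms of rational numbers near logarithms of rational numbers. -/

namespace Pool.Agent.L0h53.PL

open Finset Pool.Agent.L0h53.NP

/-- degenerate case: `log r` is a rational multiple of `log x` -/
theorem degen {H : ℝ} (hH : 3 ≤ H) {x y r : ℚ} (hx : 0 < x) (hy : 0 < y) (hr : 0 < r)
    (hxH : HtLe H x) (hyH : HtLe H y) (hrH : HtLe H r) (hx1 : x ≠ 1) (hy1 : y ≠ 1)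
    (m0 m1 : ℤ) (hm1 : m1 ≠ 0) (hrel : (m0 : ℝ) * Real.log x + m1 * Real.log r = 0) :
    Real.exp (-(303 * Real.log H ^ 5)) ≤ |Real.log x * Real.log y - Real.log r| := by
  have hlog : 1 ≤ Real.log H := by
    rw [Real.le_log_iff_exp_le (by linarith)]
    have := Real.exp_one_lt_d9
    linarith
  obtain ⟨p, hp, hv⟩ := exists_val hx hx1
  obtain ⟨v, hvdef⟩ : ∃ v, v = padicValRat p x := ⟨_, rfl⟩
  obtain ⟨u, hudef⟩ : ∃ u, u = padicValRat p r := ⟨_, rfl⟩
  have hval := (log2_iff hx hr m0 m1).mp hrel p hp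
  rw [← hvdef, ← hudef] at hval
  rw [← hvdef] at hv
  have hvle : |(v : ℝ)| ≤ 2 * Real.log H := by rw [hvdef]; exact val_le hx hxH p hp
  have huv : (u : ℝ) * Real.log x = v * Real.log r := by
    have hvalR : (m0 : ℝ) * v + m1 * u = 0 := by exact_mod_cast hval
    have h1 : (m1 : ℝ) * (u * Real.log x - v * Real.log r) = 0 := by
      linear_combination Real.log x * hvalR - (v : ℝ) * hrel
    have := (mul_eq_zero.mp h1).resolve_left (by exact_mod_cast hm1)
    linarith
  have h1 := log_measure hH hy hy1 hyH v u hv hvle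
  have h3 : |(v : ℝ) * Real.log y - u| * |Real.log x| =
      |(v : ℝ)| * |Real.log x * Real.log y - Real.log r| := by
    rw [← abs_mul, ← abs_mul]
    congr 1
    linear_combination -huv
  have hxne : Real.log x ≠ 0 := fun h => hx1 (eq_one_of_log hx h)
  have h4 : Real.exp (-Real.log H) ≤ |Real.log x| := by
    have := linform_lower (Finset.univ : Finset (Fin 1)) (fun _ => x) (fun _ => hx)
      (fun _ => 1) (H := H) (by linarith) (fun _ => hxH) 1 (by simp) (by simpa using hxne)
    simpa using this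
  obtain ⟨L, hL⟩ : ∃ L, L = Real.log H := ⟨_, rfl⟩
  rw [← hL] at h1 h4 hvle hlog ⊢
  have hLL : L ≤ L ^ 5 := by
    calc L = L ^ 1 := (pow_one L).symm
      _ ≤ L ^ 5 := pow_le_pow_right₀ hlog (by norm_num)
  have h5 : Real.exp (-(300 * L ^ 5)) * Real.exp (-L) ≤
      Real.exp (2 * L) * |Real.log x * Real.log y - Real.log r| := by
    calc Real.exp (-(300 * L ^ 5)) * Real.exp (-L) ≤ |(v : ℝ) * Real.log y - u| * |Real.log x| :=
          mul_le_mul h1 h4 (Real.exp_pos _).le (abs_nonneg _)
      _ = |(v : ℝ)| * |Real.log x * Real.log y - Real.log r| := h3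
      _ ≤ Real.exp (2 * L) * |Real.log x * Real.log y - Real.log r| := by
          apply mul_le_mul_of_nonneg_right _ (abs_nonneg _)
          refine hvle.trans ?_
          have := Real.add_one_le_exp (2 * L)
          linarith
  have h6 : Real.exp (-(2 * L)) * (Real.exp (-(300 * L ^ 5)) * Real.exp (-L)) ≤
      |Real.log x * Real.log y - Real.log r| := by
    have := mul_le_mul_of_nonneg_left h5 (Real.exp_pos (-(2 * L))).le
    rwa [← mul_assoc (Real.exp (-(2 * L))) (Real.exp (2 * L)), ← Real.exp_add (-(2 * L)) (2 * L),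
      neg_add_cancel, Real.exp_zero, one_mul] at this
  refine le_trans ?_ h6
  rw [← Real.exp_add, ← Real.exp_add]
  apply Real.exp_le_exp.mpr
  linarith

/-- **Two bases are dependent.** -/
theorem pair_dep (κ : ℝ) (hκ : 9 < κ) : ∃ C : ℝ, 0 < C ∧ ∀ H : ℝ, 3 ≤ H →
    ∀ c a0 a1 r0 r1 : ℚ, 0 < c → c ≠ 1 → 0 < a0 → 0 < a1 → 0 < r0 → 0 < r1 → HtLe H c →
    HtLe H a0 → HtLe H a1 → HtLe H r0 → HtLe H r1 →
    |Real.log a0 * Real.log c - Real.log r0| ≤ Real.exp (-(C * Real.log H ^ κ)) →
    |Real.log a1 * Real.log c - Real.log r1| ≤ Real.exp (-(C * Real.log H ^ κ)) →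
    ∃ s1 s2 : ℤ, (s1 ≠ 0 ∨ s2 ≠ 0) ∧ (s1 : ℝ) * Real.log a0 + s2 * Real.log a1 = 0 := by
  obtain ⟨C0, hC0, hcore⟩ := coreL κ hκ
  refine ⟨C0 + 310, by positivity, ?_⟩
  intro H hH c a0 a1 r0 r1 hc hc1 ha0 ha1 hr0 hr1 hcH ha0H ha1H hr0H hr1H hap0 hap1
  have hlog : 1 ≤ Real.log H := by
    rw [Real.le_log_iff_exp_le (by linarith)]
    have := Real.exp_one_lt_d9
    linarith
  have hL5 : Real.log H ^ 5 ≤ Real.log H ^ κ := by
    rw [← Real.rpow_natCast]
    exact Real.rpow_le_rpow_of_exponent_le hlog (by push_cast; linarith)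
  have hLL : Real.log H ≤ Real.log H ^ 5 := by
    calc Real.log H = Real.log H ^ 1 := (pow_one _).symm
      _ ≤ _ := pow_le_pow_right₀ hlog (by norm_num)
  by_contra hcon
  push Not at hcon
  have hind : ∀ s1 s2 : ℤ, (s1 : ℝ) * Real.log a0 + s2 * Real.log a1 = 0 → s1 = 0 ∧ s2 = 0 := by
    intro s1 s2 h
    by_contra hc
    exact hcon s1 s2 (by tauto) h
  have ha0ne : a0 ≠ 1 := by
    intro h
    have := (hind 1 0 (by rw [h]; simp)).1
    omega
  have hcne : Real.log c ≠ 0 := fun h => hc1 (eq_one_of_log hc h)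
  -- conversion
  have hconv : ∀ a r : ℚ, 0 < r → HtLe H r →
      |Real.log a * Real.log c - Real.log r| ≤ Real.exp (-((C0 + 310) * Real.log H ^ κ)) →
      |Real.exp (Real.log c * Real.log a) - r| ≤ Real.exp (-(C0 * Real.log H ^ κ)) ∧
      |Real.log a * Real.log c| ≤ Real.log H + 1 := by
    intro a r hr hrH h
    have hrR : (0 : ℝ) < r := by exact_mod_cast hr
    have h1 : |Real.log a * Real.log c - Real.log r| ≤ 1 := by
      refine h.trans ?_
      rw [Real.exp_le_one_iff]
      nlinarith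
    constructor
    · obtain ⟨t, ht⟩ : ∃ t, t = Real.log a * Real.log c - Real.log r := ⟨_, rfl⟩
      rw [← ht] at h h1
      have h2 : Real.exp (Real.log c * Real.log a) - r = r * (Real.exp t - 1) := by
        have : Real.log c * Real.log a = Real.log r + t := by rw [ht]; ring
        rw [this, Real.exp_add, Real.exp_log hrR]
        ring
      rw [h2, abs_mul, abs_of_pos hrR]
      have h3 := exp_sub_one_le h1
      have h4 : (r : ℝ) ≤ Real.exp (Real.log H) := by
        rw [Real.exp_log (by linarith)]; exact le_of_ht hrH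
      have h5 : (2 : ℝ) ≤ Real.exp 1 := by
        have := Real.exp_one_gt_d9
        linarith
      calc (r : ℝ) * |Real.exp t - 1| ≤ Real.exp (Real.log H) *
            (Real.exp 1 * Real.exp (-((C0 + 310) * Real.log H ^ κ))) := by
            apply mul_le_mul h4 (h3.trans _) (abs_nonneg _) (Real.exp_pos _).le
            exact mul_le_mul h5 h (abs_nonneg _) (Real.exp_pos _).le
        _ = Real.exp (Real.log H + (1 + -((C0 + 310) * Real.log H ^ κ))) := by
            rw [← Real.exp_add, ← Real.exp_add]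
        _ ≤ _ := by
            apply Real.exp_le_exp.mpr
            nlinarith
    · have h2 : |Real.log a * Real.log c| ≤ |Real.log r| +
          |Real.log a * Real.log c - Real.log r| := by
        have : Real.log a * Real.log c = Real.log r + (Real.log a * Real.log c - Real.log r) := by
          ring
        calc |Real.log a * Real.log c| =
            |Real.log r + (Real.log a * Real.log c - Real.log r)| := by rw [← this]
          _ ≤ _ := abs_add_le _ _
      have h3 := log_le_of_ht (by linarith) hr hrH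
      linarith
  obtain ⟨e0, f0⟩ := hconv a0 r0 hr0 hr0H hap0
  obtain ⟨e1, f1⟩ := hconv a1 r1 hr1 hr1H hap1
  have hlt : Real.exp (-((C0 + 310) * Real.log H ^ κ)) < Real.exp (-(303 * Real.log H ^ 5)) := by
    apply Real.exp_lt_exp.mpr
    nlinarith
  rcases hcore H hH c a0 a1 r0 r1 hc ha0 ha1 hr0 hr1 hcH ha0H ha1H hr0H hr1H hcne e0 e1 f0 f1 hind
    with ⟨m0, m1, hm1, hrel⟩ | ⟨m0, m1, hm1, hrel⟩
  · have := degen hH ha0 hc hr0 ha0H hcH hr0H ha0ne hc1 m0 m1 hm1 hrel
    linarith
  · have := degen hH hc ha0 hr0 hcH ha0H hr0H hc1 ha0ne m0 m1 hm1 hrel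
    rw [mul_comm (Real.log c)] at this
    linarith

end Pool.Agent.L0h53.PL
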