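import Mathlib
import Pool.Agent.L0h53.NP.Rel
import Pool.Agent.L0h53.PL.Main

set_option autoImplicit false

/-! Pairwise dependent pairs of positive rational numbers are powers of one pair. -/

namespace Pool.Agent.L0h53.PL

open Finset Pool.Agent.L0h53.NP

theorem struct (S : Set (ℚ × ℚ)) (hpos : ∀ p ∈ S, 0 < p.1 ∧ 0 < p.2)
    (hdep : ∀ p ∈ S, ∀ q ∈ S, ∃ s1 s2 : ℤ, (s1 ≠ 0 ∨ s2 ≠ 0) ∧
      (s1 : ℝ) * Real.log p.1 + s2 * Real.log q.1 = 0 ∧
      (s1 : ℝ) * Real.log p.2 + s2 * Real.log q.2 = 0)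
    (h1 : ∀ p ∈ S, p.1 = 1 → p.2 = 1) :
    ∃ m w : ℚ, 0 < m ∧ 0 < w ∧ ∀ p ∈ S, ∃ k : ℤ, p = (m ^ k, w ^ k) := by
  by_cases hall : ∀ p ∈ S, p.1 = 1
  · refine ⟨1, 1, one_pos, one_pos, fun p hp => ⟨0, ?_⟩⟩
    have e1 := hall p hp
    have e2 := h1 p hp e1
    ext <;> simp [e1, e2]
  push Not at hall
  obtain ⟨q, hqS, hq1⟩ := hall
  obtain ⟨m0, hm0, hm⟩ := pow_structure (Prod.fst '' S) (by
    rintro a ⟨p, hp, rfl⟩
    exact (hpos p hp).1) (by
    rintro a ⟨p, hp, rfl⟩ b ⟨q, hq, rfl⟩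
    obtain ⟨s1, s2, hs, e, -⟩ := hdep p hp q hq
    exact ⟨s1, s2, hs, e⟩)
  have hm' : ∀ p ∈ S, ∃ k : ℤ, p.1 = m0 ^ k := fun p hp => hm p.1 ⟨p, hp, rfl⟩
  obtain ⟨k0, hk0⟩ := hm' q hqS
  have hk00 : k0 ≠ 0 := by
    intro h
    apply hq1
    rw [hk0, h, zpow_zero]
  have hk00R : (k0 : ℝ) ≠ 0 := by exact_mod_cast hk00
  have hlogm0 : Real.log m0 ≠ 0 := by
    intro h
    have := eq_one_of_log hm0 h
    apply hq1
    rw [hk0, this, one_zpow]
  obtain ⟨lam, hlam⟩ : ∃ lam : ℝ, lam = Real.log q.2 / k0 := ⟨_, rfl⟩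
  have hqlam : Real.log q.2 = lam * k0 := by rw [hlam]; field_simp
  have hlin : ∀ p ∈ S, ∀ k : ℤ, p.1 = m0 ^ k → Real.log p.2 = lam * k := by
    intro p hp k hk
    by_cases hk0' : k = 0
    · have e1 : p.1 = 1 := by rw [hk, hk0', zpow_zero]
      rw [h1 p hp e1, hk0']
      simp
    obtain ⟨s1, s2, hs, e1, e2⟩ := hdep p hp q hqS
    rw [hk, hk0] at e1
    push_cast at e1
    rw [Real.log_zpow, Real.log_zpow] at e1
    have e3 : ((s1 : ℝ) * k + s2 * k0) * Real.log m0 = 0 := by linear_combination e1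
    have e4 : (s1 : ℝ) * k + s2 * k0 = 0 := (mul_eq_zero.mp e3).resolve_right hlogm0
    have e5 : s1 * k + s2 * k0 = 0 := by exact_mod_cast e4
    have hs1 : s1 ≠ 0 := by
      intro h
      rw [h, zero_mul, zero_add] at e5
      have := (mul_eq_zero.mp e5).resolve_right hk00
      rcases hs with hs | hs
      · exact hs h
      · exact hs this
    have hs1R : (s1 : ℝ) ≠ 0 := by exact_mod_cast hs1
    rw [hqlam] at e2
    have e6 : (s1 : ℝ) * (Real.log p.2 - lam * k) = 0 := by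
      linear_combination e2 - lam * e4
    have := (mul_eq_zero.mp e6).resolve_left hs1R
    linarith
  let Z : AddSubgroup ℤ :=
    { carrier := {j | ∃ w : ℚ, 0 < w ∧ Real.log w = lam * j}
      add_mem' := by
        rintro i j ⟨w, hw, e⟩ ⟨w', hw', e'⟩
        refine ⟨w * w', mul_pos hw hw', ?_⟩
        have h1 : (w : ℝ) ≠ 0 := by exact_mod_cast hw.ne'
        have h2 : (w' : ℝ) ≠ 0 := by exact_mod_cast hw'.ne'
        push_cast
        rw [Real.log_mul h1 h2, e, e']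
        ring
      zero_mem' := ⟨1, one_pos, by simp⟩
      neg_mem' := by
        rintro i ⟨w, hw, e⟩
        refine ⟨w⁻¹, inv_pos.mpr hw, ?_⟩
        push_cast
        rw [Real.log_inv, e]
        ring }
  obtain ⟨g, hg⟩ := Int.subgroup_cyclic Z
  have hgZ : g ∈ Z := by
    rw [hg]
    exact AddSubgroup.subset_closure rfl
  obtain ⟨w, hw, hwlog⟩ := hgZ
  refine ⟨m0 ^ g, w, zpow_pos hm0 _, hw, fun p hp => ?_⟩
  obtain ⟨k, hk⟩ := hm' p hp
  have hkZ : k ∈ Z := ⟨p.2, (hpos p hp).2, hlin p hp k hk⟩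
  rw [hg, AddSubgroup.mem_closure_singleton] at hkZ
  obtain ⟨k', hk'⟩ := hkZ
  rw [smul_eq_mul] at hk'
  refine ⟨k', ?_⟩
  ext
  · change p.1 = (m0 ^ g) ^ k'
    rw [hk, ← hk', ← zpow_mul, mul_comm]
  · change p.2 = w ^ k'
    apply eq_of_log (hpos p hp).2 (zpow_pos hw _)
    push_cast
    rw [Real.log_zpow, hwlog, hlin p hp k hk, ← hk']
    push_cast
    ring

/-- the valuations of a rational number of bounded height -/
theorem val_le' {H : ℝ} {a : ℚ} (ha : 0 < a) (h : HtLe H a) (p : ℕ) (hp : p.Prime) :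
    |(padicValRat p a : ℝ)| ≤ Real.log H / Real.log 2 := by
  have := Fact.mk hp
  obtain ⟨h1, h2⟩ := h
  have hlog2 : 0 < Real.log 2 := Real.log_pos (by norm_num)
  have key : ∀ n : ℕ, n ≠ 0 → (n : ℝ) ≤ H → (padicValNat p n : ℝ) ≤ Real.log H / Real.log 2 := by
    intro n hn hnH
    have h3 : p ^ padicValNat p n ≤ n := Nat.le_of_dvd (Nat.pos_of_ne_zero hn) pow_padicValNat_dvd
    have h4 : (2 : ℝ) ^ padicValNat p n ≤ H := by
      calc (2 : ℝ) ^ padicValNat p n ≤ (p : ℝ) ^ padicValNat p n := by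
            apply pow_le_pow_left₀ (by norm_num)
            exact_mod_cast hp.two_le
        _ = ((p ^ padicValNat p n : ℕ) : ℝ) := by push_cast; ring
        _ ≤ n := by exact_mod_cast h3
        _ ≤ H := hnH
    have h5 := Real.log_le_log (by positivity) h4
    rw [Real.log_pow] at h5
    rwa [le_div_iff₀ hlog2]
  have hnum : 0 < a.num := Rat.num_pos.mpr ha
  have k1 := key a.num.natAbs (by omega) (by
    rw [Nat.cast_natAbs]; push_cast; exact h1)
  have k2 := key a.den a.den_nz h2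
  have e : (padicValRat p a : ℝ) = (padicValNat p a.num.natAbs : ℝ) - (padicValNat p a.den : ℝ) := by
    rw [padicValRat_def]
    unfold padicValInt
    rw [Int.cast_sub, Int.cast_natCast, Int.cast_natCast]
  rw [e, abs_le]
  have z1 : (0 : ℝ) ≤ (padicValNat p a.num.natAbs : ℝ) := Nat.cast_nonneg _
  have z2 : (0 : ℝ) ≤ (padicValNat p a.den : ℝ) := Nat.cast_nonneg _
  constructor <;> linarith

theorem count_pairs {H : ℝ} (hH : 3 ≤ H) (S : Set (ℚ × ℚ)) (hS : ∀ p ∈ S, HtLe H p.1)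
    (h1 : ∀ p ∈ S, p.1 = 1 → p.2 = 1) (m w : ℚ) (hm : 0 < m)
    (h : ∀ p ∈ S, ∃ k : ℤ, p = (m ^ k, w ^ k)) :
    S.Finite ∧ (S.ncard : ℝ) ≤ 2 * (Real.log H / Real.log 2) + 1 := by
  classical
  have hlog2 : 0 < Real.log 2 := Real.log_pos (by norm_num)
  have hlogH : 0 ≤ Real.log H := Real.log_nonneg (by linarith)
  obtain ⟨N, hN⟩ : ∃ N : ℕ, N = ⌊Real.log H / Real.log 2⌋₊ := ⟨_, rfl⟩
  have hN' : (N : ℝ) ≤ Real.log H / Real.log 2 := by
    rw [hN]; exact Nat.floor_le (by positivity)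
  have hsub : S ⊆ ((Finset.Icc (-(N : ℤ)) N).image fun k : ℤ => (m ^ k, w ^ k) :
      Finset (ℚ × ℚ)) := by
    intro p hp
    rw [Finset.mem_coe, Finset.mem_image]
    by_cases hm1 : m = 1
    · obtain ⟨k, hk⟩ := h p hp
      have e1 : p.1 = 1 := by rw [hk, hm1]; simp
      have e2 := h1 p hp e1
      refine ⟨0, by simp, ?_⟩
      rw [zpow_zero, zpow_zero]
      ext
      · exact e1.symm
      · exact e2.symm
    · obtain ⟨k, hk⟩ := h p hp
      refine ⟨k, ?_, hk.symm⟩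
      obtain ⟨r, hr, hv⟩ := exists_val hm hm1
      have := Fact.mk hr
      have e1 : p.1 = m ^ k := by rw [hk]
      have e2 := val_le' (by rw [e1]; exact zpow_pos hm _) (hS p hp) r hr
      rw [e1, padicValRat.zpow] at e2
      have e3 : |((k * padicValRat r m : ℤ) : ℝ)| ≤ Real.log H / Real.log 2 := e2
      have e4 : (k.natAbs : ℝ) ≤ Real.log H / Real.log 2 := by
        refine le_trans ?_ e3
        rw [Nat.cast_natAbs]
        have : |k| ≤ |k * padicValRat r m| := by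
          rw [abs_mul]
          have : 1 ≤ |padicValRat r m| := Int.one_le_abs hv
          have := abs_nonneg k
          nlinarith
        exact_mod_cast this
      have e5 : k.natAbs ≤ N := by rw [hN]; exact Nat.le_floor e4
      rw [Finset.mem_Icc]
      omega
  have hfin : S.Finite := (Finset.finite_toSet _).subset hsub
  refine ⟨hfin, ?_⟩
  have h2 : S.ncard ≤ 2 * N + 1 := by
    calc S.ncard ≤ (((Finset.Icc (-(N : ℤ)) N).image fun k : ℤ => (m ^ k, w ^ k) :
          Finset (ℚ × ℚ)) : Set (ℚ × ℚ)).ncard := Set.ncard_le_ncard hsub (Finset.finite_toSet _)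
      _ = ((Finset.Icc (-(N : ℤ)) N).image fun k : ℤ => (m ^ k, w ^ k)).card := Set.ncard_coe_finset _
      _ ≤ (Finset.Icc (-(N : ℤ)) N).card := Finset.card_image_le
      _ = 2 * N + 1 := by
          rw [Int.card_Icc]
          omega
  have h3 : (S.ncard : ℝ) ≤ 2 * N + 1 := by exact_mod_cast h2
  linarith

/-- **Near products of logarithms.** -/
theorem near_products (κ : ℝ) (hκ : 9 < κ) : ∃ C : ℝ, 0 < C ∧ ∀ H : ℝ, 3 ≤ H →
    ∀ c : ℚ, 0 < c → HtLe H c → c ≠ 1 → ∀ S : Set (ℚ × ℚ),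
    (∀ p ∈ S, 0 < p.1 ∧ 0 < p.2 ∧ HtLe H p.1 ∧ HtLe H p.2 ∧
      |Real.log p.1 * Real.log c - Real.log p.2| ≤ Real.exp (-(C * Real.log H ^ κ))) →
    (∃ m w : ℚ, 0 < m ∧ 0 < w ∧ ∀ p ∈ S, ∃ k : ℤ, p = (m ^ k, w ^ k)) ∧
    S.Finite ∧ (S.ncard : ℝ) ≤ 2 * (Real.log H / Real.log 2) + 1 := by
  obtain ⟨C0, hC0, hpair⟩ := pair_dep κ hκ
  refine ⟨C0 + 10, by positivity, ?_⟩
  intro H hH c hc hcH hc1 S hS
  have hlog : 1 ≤ Real.log H := by
    rw [Real.le_log_iff_exp_le (by linarith)]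
    have := Real.exp_one_lt_d9
    linarith
  have hL2 : Real.log H ^ 2 ≤ Real.log H ^ κ := by
    rw [← Real.rpow_natCast]
    exact Real.rpow_le_rpow_of_exponent_le hlog (by push_cast; linarith)
  have hLL : Real.log H ≤ Real.log H ^ 2 := by nlinarith
  have hLκ0 : 0 ≤ Real.log H ^ κ := by nlinarith
  have hmono : Real.exp (-((C0 + 10) * Real.log H ^ κ)) ≤ Real.exp (-(C0 * Real.log H ^ κ)) := by
    apply Real.exp_le_exp.mpr
    nlinarith
  -- a number equal to one
  have h1 : ∀ p ∈ S, p.1 = 1 → p.2 = 1 := by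
    intro p hp e
    obtain ⟨-, hp2, -, hp2H, h⟩ := hS p hp
    by_contra hne
    have hxne : Real.log p.2 ≠ 0 := fun h => hne (eq_one_of_log hp2 h)
    have h4 : Real.exp (-Real.log H) ≤ |Real.log p.2| := by
      have := linform_lower (Finset.univ : Finset (Fin 1)) (fun _ => p.2) (fun _ => hp2)
        (fun _ => 1) (H := H) (by linarith) (fun _ => hp2H) 1 (by simp) (by simpa using hxne)
      simpa using this
    rw [e] at h
    simp only [Rat.cast_one, Real.log_one, zero_mul, zero_sub, abs_neg] at h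
    have h5 : Real.exp (-((C0 + 10) * Real.log H ^ κ)) < Real.exp (-Real.log H) := by
      apply Real.exp_lt_exp.mpr
      nlinarith
    linarith
  have hdep : ∀ p ∈ S, ∀ q ∈ S, ∃ s1 s2 : ℤ, (s1 ≠ 0 ∨ s2 ≠ 0) ∧
      (s1 : ℝ) * Real.log p.1 + s2 * Real.log q.1 = 0 ∧
      (s1 : ℝ) * Real.log p.2 + s2 * Real.log q.2 = 0 := by
    intro p hp q hq
    obtain ⟨hp1, hp2, hp1H, hp2H, hpn⟩ := hS p hp
    obtain ⟨hq1, hq2, hq1H, hq2H, hqn⟩ := hS q hq
    obtain ⟨s1, s2, hs, hrel⟩ := hpair H hH c p.1 q.1 p.2 q.2 hc hc1 hp1 hq1 hp2 hq2 hcH hp1H hq1H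
      hp2H hq2H (hpn.trans hmono) (hqn.trans hmono)
    obtain ⟨t1, t2, ht, ht1, ht2, hrel2⟩ := small_rel hH hp1 hq1 hp1H hq1H hs hrel
    refine ⟨t1, t2, ht, hrel2, ?_⟩
    by_contra hne
    have h1 : Real.exp (-(4 * Real.log H * Real.log H)) ≤
        |(t1 : ℝ) * Real.log p.2 + t2 * Real.log q.2| := by
      have := linform_lower (Finset.univ : Finset (Fin 2)) ![p.2, q.2] (by
        intro i; fin_cases i
        · exact hp2
        · exact hq2) ![t1, t2] (H := H) (by linarith) (by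
        intro i; fin_cases i
        · exact hp2H
        · exact hq2H) (4 * Real.log H) (by
          simp only [Fin.sum_univ_two, Matrix.cons_val_zero, Matrix.cons_val_one]
          linarith) (by simpa [Fin.sum_univ_two] using hne)
      simpa [Fin.sum_univ_two] using this
    have h2 : |(t1 : ℝ) * Real.log p.2 + t2 * Real.log q.2| ≤
        4 * Real.log H * Real.exp (-((C0 + 10) * Real.log H ^ κ)) := by
      have e : (t1 : ℝ) * Real.log p.2 + t2 * Real.log q.2 =
          -((t1 : ℝ) * (Real.log p.1 * Real.log c - Real.log p.2) +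
            t2 * (Real.log q.1 * Real.log c - Real.log q.2)) := by
        linear_combination Real.log c * hrel2
      rw [e, abs_neg]
      refine (abs_add_le _ _).trans ?_
      rw [abs_mul, abs_mul]
      have e1 := mul_le_mul ht1 hpn (abs_nonneg _) (by linarith)
      have e2 := mul_le_mul ht2 hqn (abs_nonneg _) (by linarith)
      linarith
    have h3 : 4 * Real.log H * Real.exp (-((C0 + 10) * Real.log H ^ κ)) <
        Real.exp (-(4 * Real.log H * Real.log H)) := by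
      have e1 : 4 * Real.log H ≤ Real.exp (4 * Real.log H) := by
        have := Real.add_one_le_exp (4 * Real.log H)
        linarith
      calc 4 * Real.log H * Real.exp (-((C0 + 10) * Real.log H ^ κ)) ≤
          Real.exp (4 * Real.log H) * Real.exp (-((C0 + 10) * Real.log H ^ κ)) :=
            mul_le_mul_of_nonneg_right e1 (Real.exp_pos _).le
        _ = Real.exp (4 * Real.log H + -((C0 + 10) * Real.log H ^ κ)) := by rw [← Real.exp_add]
        _ < _ := by
            apply Real.exp_lt_exp.mpr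
            nlinarith
    linarith
  obtain ⟨m, w, hm, hw, h⟩ := struct S (fun p hp => ⟨(hS p hp).1, (hS p hp).2.1⟩) hdep h1
  exact ⟨⟨m, w, hm, hw, h⟩, count_pairs hH S (fun p hp => (hS p hp).2.2.1) h1 m w hm h⟩

end Pool.Agent.L0h53.PL
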